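import Pool.Agent.Run7.h47.Tor

/-! The square of the Bessel function `J₀` and its differential equation. -/

set_option autoImplicit false
set_option linter.unusedSectionVars false

open scoped BigOperators
open MeasureTheory Set

namespace Pool.Agent.Run7.h442.T2

open Pool.Agent.Run7.h47
open Pool.Agent.W918.BK.Osc (U U_cont U_norm U_lip U_hasDeriv full)

/-- `J₀(2s)` and its derivatives -/
noncomputable def bf (k : ℕ) (s : ℝ) : ℝ :=
  (2 * Real.pi)⁻¹ * ∫ t in (0 : ℝ)..(2 * Real.pi),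
    (2 * Real.cos t) ^ k * Real.cos (2 * (s * Real.cos t) + k * (Real.pi / 2))

theorem bf_bd (k : ℕ) (s : ℝ) : |bf k s| ≤ 2 ^ k := by
  have hpi := Real.pi_pos
  unfold bf
  rw [abs_mul, abs_of_pos (by positivity : (0 : ℝ) < (2 * Real.pi)⁻¹)]
  have h1 : ‖∫ t in (0 : ℝ)..(2 * Real.pi),
      (2 * Real.cos t) ^ k * Real.cos (2 * (s * Real.cos t) + k * (Real.pi / 2))‖ ≤
      2 ^ k * |2 * Real.pi - 0| := by
    refine intervalIntegral.norm_integral_le_of_norm_le_const fun t _ => ?_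
    rw [norm_mul, norm_pow, Real.norm_eq_abs, Real.norm_eq_abs, abs_mul, abs_two]
    have h2 := Real.abs_cos_le_one t
    have h3 := Real.abs_cos_le_one (2 * (s * Real.cos t) + k * (Real.pi / 2))
    calc (2 * |Real.cos t|) ^ k * |Real.cos (2 * (s * Real.cos t) + k * (Real.pi / 2))| ≤
        (2 * 1) ^ k * 1 := by gcongr
      _ = 2 ^ k := by rw [mul_one, mul_one]
  rw [sub_zero, abs_of_pos (by positivity), Real.norm_eq_abs] at h1
  calc (2 * Real.pi)⁻¹ * |∫ t in (0 : ℝ)..(2 * Real.pi),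
      (2 * Real.cos t) ^ k * Real.cos (2 * (s * Real.cos t) + k * (Real.pi / 2))| ≤
      (2 * Real.pi)⁻¹ * (2 ^ k * (2 * Real.pi)) := by gcongr
    _ = 2 ^ k := by field_simp

theorem bf_hasDeriv (k : ℕ) (s : ℝ) : HasDerivAt (bf k) (bf (k + 1) s) s := by
  have hpi := Real.pi_pos
  unfold bf
  refine HasDerivAt.const_mul _ ?_
  have key := intervalIntegral.hasDerivAt_integral_of_dominated_loc_of_deriv_le
    (μ := volume) (a := 0) (b := 2 * Real.pi) (𝕜 := ℝ)
    (F := fun s t => (2 * Real.cos t) ^ k * Real.cos (2 * (s * Real.cos t) + k * (Real.pi / 2)))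
    (F' := fun s t => (2 * Real.cos t) ^ (k + 1) *
      Real.cos (2 * (s * Real.cos t) + (k + 1 : ℕ) * (Real.pi / 2)))
    (x₀ := s) (s := univ) (bound := fun _ => 2 ^ (k + 1)) Filter.univ_mem
    (Filter.Eventually.of_forall fun s => (by fun_prop : Continuous fun t : ℝ =>
      (2 * Real.cos t) ^ k * Real.cos (2 * (s * Real.cos t) + k * (Real.pi / 2))).aestronglyMeasurable)
    ((by fun_prop : Continuous fun t : ℝ =>
      (2 * Real.cos t) ^ k * Real.cos (2 * (s * Real.cos t) + k * (Real.pi / 2))).intervalIntegrable _ _)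
    ((by fun_prop : Continuous fun t : ℝ => (2 * Real.cos t) ^ (k + 1) *
      Real.cos (2 * (s * Real.cos t) + (k + 1 : ℕ) * (Real.pi / 2))).aestronglyMeasurable)
    (Filter.Eventually.of_forall fun t _ x _ => ?_)
    (continuous_const.intervalIntegrable _ _)
    (Filter.Eventually.of_forall fun t _ x _ => ?_)
  · exact key.2
  · rw [norm_mul, norm_pow, Real.norm_eq_abs, Real.norm_eq_abs, abs_mul, abs_two]
    have h2 := Real.abs_cos_le_one t
    have h3 := Real.abs_cos_le_one (2 * (x * Real.cos t) + (k + 1 : ℕ) * (Real.pi / 2))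
    calc (2 * |Real.cos t|) ^ (k + 1) *
          |Real.cos (2 * (x * Real.cos t) + (k + 1 : ℕ) * (Real.pi / 2))| ≤
        (2 * 1) ^ (k + 1) * 1 := by gcongr
      _ = 2 ^ (k + 1) := by rw [mul_one, mul_one]
  · have h1 : HasDerivAt (fun x : ℝ => 2 * (x * Real.cos t) + k * (Real.pi / 2))
        (2 * (1 * Real.cos t)) x :=
      (((hasDerivAt_id x).mul_const (Real.cos t)).const_mul 2).add_const _
    have h2 := (h1.cos).const_mul ((2 * Real.cos t) ^ k)
    refine h2.congr_deriv ?_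
    have h3 : 2 * (x * Real.cos t) + (k + 1 : ℕ) * (Real.pi / 2) =
        (2 * (x * Real.cos t) + k * (Real.pi / 2)) + Real.pi / 2 := by
      push_cast
      ring
    rw [h3, Real.cos_add_pi_div_two]
    ring

theorem bf_cont (k : ℕ) : Continuous (bf k) :=
  continuous_iff_continuousAt.2 fun s => (bf_hasDeriv k s).continuousAt

/-- the Bessel equation -/
theorem bessel (s : ℝ) : s * (bf 2 s + 4 * bf 0 s) = -bf 1 s := by
  have hpi := Real.pi_pos
  have hu : ∀ t ∈ uIcc (0 : ℝ) (2 * Real.pi), HasDerivAt (fun t : ℝ => -(2 * Real.sin t))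
      (-(2 * Real.cos t)) t := fun t _ => ((Real.hasDerivAt_sin t).const_mul 2).neg
  have hv : ∀ t ∈ uIcc (0 : ℝ) (2 * Real.pi),
      HasDerivAt (fun t : ℝ => Real.sin (2 * (s * Real.cos t)))
      (Real.cos (2 * (s * Real.cos t)) * (2 * (s * (-Real.sin t)))) t := fun t _ =>
    (((Real.hasDerivAt_cos t).const_mul s).const_mul 2).sin
  have key := intervalIntegral.integral_mul_deriv_eq_deriv_mul hu hv
    (Continuous.intervalIntegrable (by fun_prop) _ _)
    (Continuous.intervalIntegrable (by fun_prop) _ _)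
  simp only [Real.sin_two_pi, Real.sin_zero, mul_zero, neg_zero, zero_mul, sub_zero,
    zero_sub] at key
  have e2 : bf 2 s + 4 * bf 0 s = (2 * Real.pi)⁻¹ * ∫ t in (0 : ℝ)..(2 * Real.pi),
      (2 * Real.sin t) ^ 2 * Real.cos (2 * (s * Real.cos t)) := by
    unfold bf
    have h4 : (4 : ℝ) * ((2 * Real.pi)⁻¹ * ∫ t in (0 : ℝ)..(2 * Real.pi),
        (2 * Real.cos t) ^ 0 * Real.cos (2 * (s * Real.cos t) + (0 : ℕ) * (Real.pi / 2))) =
        (2 * Real.pi)⁻¹ * ∫ t in (0 : ℝ)..(2 * Real.pi), 4 * Real.cos (2 * (s * Real.cos t)) := by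
      rw [mul_left_comm, ← intervalIntegral.integral_const_mul]
      congr 1
      refine intervalIntegral.integral_congr fun t _ => ?_
      simp
    rw [h4, ← mul_add, ← intervalIntegral.integral_add
      (Continuous.intervalIntegrable (by fun_prop) _ _)
      (Continuous.intervalIntegrable (by fun_prop) _ _)]
    congr 1
    refine intervalIntegral.integral_congr fun t _ => ?_
    have h5 : 2 * (s * Real.cos t) + ((2 : ℕ) : ℝ) * (Real.pi / 2) =
        2 * (s * Real.cos t) + Real.pi := by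
      push_cast
      ring
    rw [h5, Real.cos_add_pi]
    have h6 := Real.sin_sq_add_cos_sq t
    linear_combination (-4 * Real.cos (2 * (s * Real.cos t))) * h6
  have e1 : bf 1 s = (2 * Real.pi)⁻¹ * ∫ t in (0 : ℝ)..(2 * Real.pi),
      -(2 * Real.cos t) * Real.sin (2 * (s * Real.cos t)) := by
    unfold bf
    congr 1
    refine intervalIntegral.integral_congr fun t _ => ?_
    have h5 : 2 * (s * Real.cos t) + ((1 : ℕ) : ℝ) * (Real.pi / 2) =
        2 * (s * Real.cos t) + Real.pi / 2 := by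
      push_cast
      ring
    rw [h5, Real.cos_add_pi_div_two, pow_one]
    ring
  rw [e2, e1, mul_left_comm, ← intervalIntegral.integral_const_mul, ← mul_neg]
  congr 1
  rw [← key]
  refine intervalIntegral.integral_congr fun t _ => ?_
  ring

theorem bessel' (s : ℝ) : s * (bf 3 s + 4 * bf 1 s) = -(2 * bf 2 s + 4 * bf 0 s) := by
  have h1 : HasDerivAt (fun s => s * (bf 2 s + 4 * bf 0 s))
      (1 * (bf 2 s + 4 * bf 0 s) + s * (bf 3 s + 4 * bf 1 s)) s :=
    (hasDerivAt_id s).mul ((bf_hasDeriv 2 s).add ((bf_hasDeriv 0 s).const_mul 4))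
  have h2 : HasDerivAt (fun s => s * (bf 2 s + 4 * bf 0 s)) (-bf 2 s) s := by
    have h3 : (fun s => s * (bf 2 s + 4 * bf 0 s)) = fun s => -bf 1 s := funext bessel
    rw [h3]
    exact (bf_hasDeriv 1 s).neg
  have h4 := h1.unique h2
  linarith

/-- decay of the Bessel function and its derivative -/
theorem decay (s : ℝ) (hs : 0 ≤ s) : bf 1 s ^ 2 + 4 * bf 0 s ^ 2 ≤ 28 / (1 + s) := by
  have b0 : ∀ s, bf 0 s ^ 2 ≤ 1 := fun s => by
    have h := bf_bd 0 s
    rw [pow_zero] at h
    rw [← sq_abs]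
    exact pow_le_one₀ (abs_nonneg _) h
  have b1 : ∀ s, bf 1 s ^ 2 ≤ 4 := fun s => by
    have h := bf_bd 1 s
    rw [← sq_abs]
    calc |bf 1 s| ^ 2 ≤ (2 ^ 1) ^ 2 := pow_le_pow_left₀ (abs_nonneg _) h 2
      _ = 4 := by norm_num
  rcases le_or_gt s 1 with h1 | h1
  · rw [le_div_iff₀ (by linarith)]
    nlinarith [b0 s, b1 s]
  · -- the monotone functional
    set Φ : ℝ → ℝ := fun s => s * (bf 1 s ^ 2 + 4 * bf 0 s ^ 2) + bf 0 s * bf 1 s +
      bf 0 s ^ 2 * (1 / 2 * s⁻¹) with hΦ
    have hd : ∀ x : ℝ, 0 < x → HasDerivAt Φ (-(bf 0 x ^ 2 * (1 / 2 * (x ^ 2)⁻¹))) x := by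
      intro x hx
      have d0 := bf_hasDeriv 0 x
      have d1 := bf_hasDeriv 1 x
      have h2 := ((hasDerivAt_id x).mul ((d1.pow 2).add ((d0.pow 2).const_mul 4))).add
        (d0.mul d1)
      have h3 := h2.add ((d0.pow 2).mul ((hasDerivAt_inv hx.ne').const_mul (1 / 2)))
      refine h3.congr_deriv ?_
      have hb := bessel x
      have hb2 : bf (1 + 1) x = -4 * bf 0 x - bf 1 x / x := by
        have : bf 2 x = -4 * bf 0 x - bf 1 x / x := by
          field_simp
          linarith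
        exact this
      simp only [hb2, id_eq, Nat.cast_ofNat, Nat.add_one_sub_one, pow_one, zero_add,
        Nat.reduceAdd, Pi.add_apply, Pi.pow_apply]
      field_simp
      ring
    have hanti : AntitoneOn Φ (Ici 1) := by
      refine antitoneOn_of_deriv_nonpos (convex_Ici 1) ?_ ?_ ?_
      · exact fun x hx => (hd x (lt_of_lt_of_le one_pos hx)).continuousAt.continuousWithinAt
      · intro x hx
        rw [interior_Ici] at hx
        exact (hd x (lt_trans one_pos hx)).differentiableAt.differentiableWithinAt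
      · intro x hx
        rw [interior_Ici] at hx
        have hx0 : (0 : ℝ) < x := lt_trans one_pos hx
        rw [(hd x hx0).deriv]
        have : 0 ≤ bf 0 x ^ 2 * (1 / 2 * (x ^ 2)⁻¹) := by positivity
        linarith
    have h2 : Φ s ≤ Φ 1 := hanti (mem_Ici.2 le_rfl) (mem_Ici.2 h1.le) h1.le
    have h3 : Φ 1 ≤ 21 / 2 := by
      simp only [hΦ]
      have h4 : bf 0 1 * bf 1 1 ≤ 2 := by
        nlinarith [b0 1, b1 1, sq_nonneg (2 * bf 0 1 - bf 1 1)]
      have := b0 1
      have := b1 1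
      norm_num
      linarith
    have h4 : (s - 1 / 4) * (bf 1 s ^ 2 + 4 * bf 0 s ^ 2) ≤ Φ s := by
      simp only [hΦ]
      have h5 : 0 ≤ bf 0 s ^ 2 * (1 / 2 * s⁻¹) := by
        have : 0 < s := by linarith
        positivity
      nlinarith [sq_nonneg (bf 1 s + 2 * bf 0 s)]
    rw [le_div_iff₀ (by linarith)]
    have h5 : 0 ≤ bf 1 s ^ 2 + 4 * bf 0 s ^ 2 := by positivity
    nlinarith

/-- the square -/
noncomputable def yy (s : ℝ) : ℝ := bf 0 s ^ 2

noncomputable def y1 (s : ℝ) : ℝ := 2 * bf 0 s * bf 1 s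

noncomputable def y2 (s : ℝ) : ℝ := 2 * bf 1 s ^ 2 + 2 * bf 0 s * bf 2 s

/-- `y''' + 16 y'` -/
noncomputable def hh (s : ℝ) : ℝ :=
  6 * bf 1 s * bf 2 s + 2 * bf 0 s * bf 3 s + 32 * bf 0 s * bf 1 s

theorem hh_cont : Continuous hh := by
  unfold hh
  have := bf_cont 0
  have := bf_cont 1
  have := bf_cont 2
  have := bf_cont 3
  fun_prop

theorem hh_bd (s : ℝ) (hs : 0 ≤ s) : |hh s| ≤ 512 * (s + 1) ^ (-(3 / 2) : ℝ) := by
  have hs1 : (0 : ℝ) < s + 1 := by linarith
  have h1 : |hh s| ≤ 512 / (s + 1) ^ 2 := by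
    rcases le_or_gt s 1 with h | h
    · have h2 : |hh s| ≤ 128 := by
        unfold hh
        have a0 := abs_le.1 (bf_bd 0 s)
        have a1 := abs_le.1 (bf_bd 1 s)
        have a2 := abs_le.1 (bf_bd 2 s)
        have a3 := abs_le.1 (bf_bd 3 s)
        have e0 := bf_bd 0 s
        have e1 := bf_bd 1 s
        have e2 := bf_bd 2 s
        have e3 := bf_bd 3 s
        refine (abs_add_three _ _ _).trans ?_
        rw [abs_mul, abs_mul, abs_mul, abs_mul, abs_mul, abs_mul]
        have g1 : |(6 : ℝ)| * |bf 1 s| * |bf 2 s| ≤ 6 * 2 ^ 1 * 2 ^ 2 := by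
          rw [abs_of_pos (by norm_num : (0 : ℝ) < 6)]
          gcongr
        have g2 : |(2 : ℝ)| * |bf 0 s| * |bf 3 s| ≤ 2 * 2 ^ 0 * 2 ^ 3 := by
          rw [abs_of_pos (by norm_num : (0 : ℝ) < 2)]
          gcongr
        have g3 : |(32 : ℝ)| * |bf 0 s| * |bf 1 s| ≤ 32 * 2 ^ 0 * 2 ^ 1 := by
          rw [abs_of_pos (by norm_num : (0 : ℝ) < 32)]
          gcongr
        norm_num at g1 g2 g3 ⊢
        linarith
      refine h2.trans ?_
      rw [le_div_iff₀ (by positivity)]
      nlinarith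
    · have hs0 : 0 < s := by linarith
      have hb := bessel s
      have hb' := bessel' s
      have e2 : bf 2 s = -4 * bf 0 s - bf 1 s / s := by
        field_simp
        linarith
      have e3 : bf 3 s = -4 * bf 1 s - (2 * bf 2 s + 4 * bf 0 s) / s := by
        field_simp
        linarith
      have e4 : hh s = (-6 * bf 1 s ^ 2 + 8 * bf 0 s ^ 2 + 4 * bf 0 s * bf 1 s / s) / s := by
        unfold hh
        rw [e3, e2]
        field_simp
        ring
      have hd := decay s hs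
      have h3 : |-6 * bf 1 s ^ 2 + 8 * bf 0 s ^ 2 + 4 * bf 0 s * bf 1 s / s| ≤
          7 * (bf 1 s ^ 2 + 4 * bf 0 s ^ 2) := by
        have h4 : |4 * bf 0 s * bf 1 s / s| ≤ bf 1 s ^ 2 + 4 * bf 0 s ^ 2 := by
          rw [abs_div, abs_of_pos hs0, div_le_iff₀ hs0]
          have h5 : |4 * bf 0 s * bf 1 s| ≤ bf 1 s ^ 2 + 4 * bf 0 s ^ 2 := by
            rw [abs_le]
            constructor <;> nlinarith [sq_nonneg (bf 1 s + 2 * bf 0 s),
              sq_nonneg (bf 1 s - 2 * bf 0 s)]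
          have h6 : 0 ≤ bf 1 s ^ 2 + 4 * bf 0 s ^ 2 := by positivity
          nlinarith
        rw [abs_le] at h4 ⊢
        constructor <;> nlinarith [sq_nonneg (bf 1 s), sq_nonneg (bf 0 s), h4.1, h4.2]
      rw [e4, abs_div, abs_of_pos hs0, div_le_div_iff₀ hs0 (by positivity)]
      have h5 : bf 1 s ^ 2 + 4 * bf 0 s ^ 2 ≤ 28 / (1 + s) := hd
      have h6 : (bf 1 s ^ 2 + 4 * bf 0 s ^ 2) * (s + 1) ≤ 28 := by
        rw [le_div_iff₀ (by linarith)] at h5
        linarith
      calc |-6 * bf 1 s ^ 2 + 8 * bf 0 s ^ 2 + 4 * bf 0 s * bf 1 s / s| * (s + 1) ^ 2 ≤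
          7 * (bf 1 s ^ 2 + 4 * bf 0 s ^ 2) * (s + 1) ^ 2 := by gcongr
        _ = 7 * ((bf 1 s ^ 2 + 4 * bf 0 s ^ 2) * (s + 1)) * (s + 1) := by ring
        _ ≤ 7 * 28 * (s + 1) := by gcongr
        _ ≤ 512 * s := by linarith
  refine h1.trans ?_
  rw [div_eq_mul_inv]
  refine mul_le_mul_of_nonneg_left ?_ (by norm_num)
  have e1 : ((s + 1) ^ 2)⁻¹ = (s + 1) ^ (-2 : ℝ) := by
    rw [Real.rpow_neg hs1.le]
    norm_num
  rw [e1]
  exact Real.rpow_le_rpow_of_exponent_le (by linarith) (by norm_num)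

theorem sin_zero_int (s : ℝ) :
    ∫ t in (0 : ℝ)..(2 * Real.pi), Real.sin (2 * (s * Real.cos t)) = 0 := by
  have hc : Continuous fun t : ℝ => Real.sin (2 * (s * Real.cos t)) := by fun_prop
  have h1 := intervalIntegral.integral_add_adjacent_intervals (a := 0) (b := Real.pi)
    (c := 2 * Real.pi) (μ := volume) (hc.intervalIntegrable _ _) (hc.intervalIntegrable _ _)
  rw [← h1]
  have h2 := intervalIntegral.integral_comp_add_right (a := 0) (b := Real.pi)
    (fun t : ℝ => Real.sin (2 * (s * Real.cos t))) Real.pi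
  rw [zero_add, ← two_mul] at h2
  rw [← h2]
  have h3 : ∀ t : ℝ, Real.sin (2 * (s * Real.cos (t + Real.pi))) =
      -Real.sin (2 * (s * Real.cos t)) := by
    intro t
    rw [Real.cos_add_pi, ← Real.sin_neg]
    congr 1
    ring
  simp only [h3]
  rw [intervalIntegral.integral_neg]
  ring

theorem WJ_real (s : ℝ) : WJ s = ((bf 0 s : ℝ) : ℂ) := by
  have e1 : ∀ t : ℝ, U s t = ((Real.cos (2 * (s * Real.cos t)) : ℝ) : ℂ) +
      ((Real.sin (2 * (s * Real.cos t)) : ℝ) : ℂ) * Complex.I := by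
    intro t
    unfold U
    rw [mul_comm, Complex.exp_mul_I]
    push_cast
    rfl
  unfold WJ bf
  simp only [e1]
  rw [intervalIntegral.integral_add
    (Continuous.intervalIntegrable (by fun_prop) _ _)
    (Continuous.intervalIntegrable (by fun_prop) _ _), intervalIntegral.integral_mul_const,
    intervalIntegral.integral_ofReal, intervalIntegral.integral_ofReal, sin_zero_int]
  push_cast
  simp

theorem bf0_zero : bf 0 0 = 1 := by
  have hpi := Real.pi_pos
  unfold bf
  simp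
  field_simp

theorem bf1_zero : bf 1 0 = 0 := by
  have h := bessel 0
  rw [zero_mul] at h
  linarith

theorem bf2_zero : bf 2 0 = -2 := by
  have h := bessel' 0
  rw [zero_mul, bf0_zero] at h
  linarith

/-- the Laplace transform of `y` -/
theorem laplace (c : ℂ) (hc : 0 < c.re) :
    (c ^ 3 + 16 * c) * ∫ s in Ioi (0 : ℝ), Complex.exp (-c * s) * ((yy s : ℝ) : ℂ) =
      (∫ s in Ioi (0 : ℝ), Complex.exp (-c * s) * ((hh s : ℝ) : ℂ)) + 12 + c ^ 2 := by
  set G : ℝ → ℂ := fun s => Complex.exp (-c * s) *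
    (((y2 s + 16 * yy s : ℝ) : ℂ) + c * ((y1 s : ℝ) : ℂ) + c ^ 2 * ((yy s : ℝ) : ℂ)) with hG
  have dy : ∀ s, HasDerivAt yy (y1 s) s := fun s => by
    have := (bf_hasDeriv 0 s).pow 2
    refine this.congr_deriv ?_
    unfold y1
    simp
  have dy1 : ∀ s, HasDerivAt y1 (y2 s) s := fun s => by
    have := ((bf_hasDeriv 0 s).const_mul 2).mul (bf_hasDeriv 1 s)
    refine this.congr_deriv ?_
    unfold y2
    simp only [Nat.reduceAdd, zero_add]
    ring
  have dy2 : ∀ s, HasDerivAt y2 (6 * bf 1 s * bf 2 s + 2 * bf 0 s * bf 3 s) s := fun s => by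
    have := (((bf_hasDeriv 1 s).pow 2).const_mul 2).add
      (((bf_hasDeriv 0 s).const_mul 2).mul (bf_hasDeriv 2 s))
    refine this.congr_deriv ?_
    simp only [Nat.reduceAdd, zero_add, Nat.add_one_sub_one, pow_one, Nat.cast_ofNat]
    ring
  have dG : ∀ s : ℝ, HasDerivAt G (Complex.exp (-c * s) * ((hh s : ℝ) : ℂ) -
      (c ^ 3 + 16 * c) * (Complex.exp (-c * s) * ((yy s : ℝ) : ℂ))) s := by
    intro s
    have h1 : HasDerivAt (fun s : ℝ => Complex.exp (-c * s)) (Complex.exp (-c * s) * (-c * 1)) s :=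
      ((Complex.ofRealCLM.hasDerivAt (x := s)).const_mul (-c)).cexp
    have h2 := h1.mul ((((dy2 s).add ((dy s).const_mul 16)).ofReal_comp.add
      ((dy1 s).ofReal_comp.const_mul c)).add ((dy s).ofReal_comp.const_mul (c ^ 2)))
    refine h2.congr_deriv ?_
    simp only [Pi.add_apply]
    unfold hh y1 y2 yy
    push_cast
    ring
  have hY : ∀ s, 0 ≤ s → |yy s| ≤ 1 := fun s _ => by
    unfold yy
    rw [abs_pow]
    have := bf_bd 0 s
    rw [pow_zero] at this
    exact pow_le_one₀ (abs_nonneg _) this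
  have hH : ∀ s, 0 ≤ s → |hh s| ≤ 512 * (1 + s) := fun s hs => by
    refine (hh_bd s hs).trans ?_
    refine mul_le_mul_of_nonneg_left ?_ (by norm_num)
    calc (s + 1) ^ (-(3 / 2) : ℝ) ≤ (s + 1) ^ (0 : ℝ) :=
          Real.rpow_le_rpow_of_exponent_le (by linarith) (by norm_num)
      _ = 1 := Real.rpow_zero _
      _ ≤ 1 + s := by linarith
  have hKc : Continuous fun s : ℝ => Complex.exp (-c * s) := by fun_prop
  have hyc : Continuous yy := continuous_iff_continuousAt.2 fun s => (dy s).continuousAt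
  have hKn : ∀ s : ℝ, ‖Complex.exp (-c * s)‖ = Real.exp (-c.re * s) := by
    intro s
    rw [Complex.norm_exp]
    congr 1
    simp
  have hKb : ∀ s : ℝ, 0 ≤ s → ‖Complex.exp (-c * s)‖ ≤ 2 * Real.exp (-c.re * s) := by
    intro s _
    rw [hKn]
    linarith [Real.exp_pos (-c.re * s)]
  have i1 : IntegrableOn (fun s : ℝ => Complex.exp (-c * s) * ((yy s : ℝ) : ℂ)) (Ioi 0) :=
    kint hc hKc (by fun_prop) hKb (B := 1) fun s hs => by
      rw [Complex.norm_real, Real.norm_eq_abs]
      linarith [hY s hs]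
  have i2 : IntegrableOn (fun s : ℝ => Complex.exp (-c * s) * ((hh s : ℝ) : ℂ)) (Ioi 0) :=
    kint hc hKc (by have := hh_cont; fun_prop) hKb (B := 512) fun s hs => by
      rw [Complex.norm_real, Real.norm_eq_abs]
      exact hH s hs
  have hlim : Filter.Tendsto G Filter.atTop (nhds 0) := by
    have hb : ∀ s : ℝ, ‖((y2 s + 16 * yy s : ℝ) : ℂ) + c * ((y1 s : ℝ) : ℂ) +
        c ^ 2 * ((yy s : ℝ) : ℂ)‖ ≤ 32 + ‖c‖ * 4 + ‖c‖ ^ 2 := by
      intro s
      have a0 := bf_bd 0 s
      have a1 := bf_bd 1 s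
      have a2 := bf_bd 2 s
      have g0 : |yy s| ≤ 1 := by
        unfold yy
        rw [abs_pow]
        rw [pow_zero] at a0
        exact pow_le_one₀ (abs_nonneg _) a0
      have g1 : |y1 s| ≤ 4 := by
        unfold y1
        rw [abs_mul, abs_mul, abs_two]
        calc 2 * |bf 0 s| * |bf 1 s| ≤ 2 * 2 ^ 0 * 2 ^ 1 := by gcongr
          _ = 4 := by norm_num
      have g2 : |y2 s + 16 * yy s| ≤ 32 := by
        unfold y2
        refine (abs_add_three _ _ _).trans ?_
        rw [abs_mul, abs_mul, abs_mul, abs_mul, abs_two, abs_pow,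
          abs_of_pos (by norm_num : (0 : ℝ) < 16)]
        have e1 : 2 * |bf 1 s| ^ 2 ≤ 2 * (2 ^ 1) ^ 2 := by gcongr
        have e2 : 2 * |bf 0 s| * |bf 2 s| ≤ 2 * 2 ^ 0 * 2 ^ 2 := by gcongr
        rw [sq_abs] at e1 ⊢
        norm_num at e1 e2
        linarith
      refine (norm_add₃_le).trans ?_
      rw [norm_mul, norm_mul, norm_pow, Complex.norm_real, Complex.norm_real, Complex.norm_real,
        Real.norm_eq_abs, Real.norm_eq_abs, Real.norm_eq_abs]
      have := norm_nonneg c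
      calc |y2 s + 16 * yy s| + ‖c‖ * |y1 s| + ‖c‖ ^ 2 * |yy s| ≤ 32 + ‖c‖ * 4 + ‖c‖ ^ 2 * 1 := by
            gcongr
        _ = _ := by ring
    have h0 : Filter.Tendsto (fun s : ℝ => Real.exp (-c.re * s)) Filter.atTop (nhds 0) := by
      have h3 : Filter.Tendsto (fun s : ℝ => -(c.re * s)) Filter.atTop Filter.atBot :=
        Filter.tendsto_neg_atTop_atBot.comp (Filter.tendsto_id.const_mul_atTop hc)
      have h4 := Real.tendsto_exp_atBot.comp h3
      refine h4.congr fun s => ?_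
      simp only [Function.comp]
      congr 1
      ring
    have h5 := h0.mul_const (32 + ‖c‖ * 4 + ‖c‖ ^ 2)
    rw [zero_mul] at h5
    refine squeeze_zero_norm (fun s => ?_) h5
    simp only [hG]
    rw [norm_mul, hKn]
    exact mul_le_mul_of_nonneg_left (hb s) (Real.exp_pos _).le
  have hI := integral_Ioi_of_hasDerivAt_of_tendsto (a := 0) (f := G)
    (by exact (dG 0).continuousAt.continuousWithinAt) (fun s _ => dG s)
    (i2.sub (i1.const_mul _)) hlim
  rw [integral_sub i2 (i1.const_mul _), integral_const_mul] at hI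
  have hG0 : G 0 = 12 + c ^ 2 := by
    simp only [hG]
    unfold y2 y1 yy
    rw [bf0_zero, bf1_zero, bf2_zero]
    push_cast
    simp
    norm_num
  rw [hG0] at hI
  linear_combination (-1 : ℂ) * hI

end Pool.Agent.Run7.h442.T2
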