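import Pool.Agent.Run7.h442.T2.Fre
import Pool.Agent.Run7.h47.Pos

/-! The density of states and the velocity average in dimension two. -/

set_option autoImplicit false
set_option linter.unusedSectionVars false

open scoped BigOperators Matrix
open MeasureTheory Set Filter Topology

namespace Pool.Agent.Run7.h442.T2

open Pool.Agent.Run7.h47
open Pool.Agent.W788.MFP.Four Pool.Agent.W788.MFP.Dos
open Pool.Agent.W918.BK.Osc (U U_cont U_norm U_lip U_hasDeriv full)

theorem tend_pow (C : ℝ) : Tendsto (fun η : ℝ => C * η ^ (1 / 4 : ℝ)) (𝓝[>] 0) (𝓝 0) := by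
  have h4 : Tendsto (fun η : ℝ => C * η ^ (1 / 4 : ℝ)) (𝓝 0) (𝓝 (C * 0 ^ (1 / 4 : ℝ))) :=
    ((Real.continuousAt_rpow_const _ _ (Or.inr (by norm_num))).tendsto).const_mul _
  rw [Real.zero_rpow (by norm_num), mul_zero] at h4
  exact h4.mono_left nhdsWithin_le_nhds

theorem shift_im {E η : ℝ} : ((E : ℂ) + (η : ℂ) * Complex.I).im = η := by simp

theorem shift_norm {E η : ℝ} (hη : 0 ≤ η) : ‖((E : ℂ) + (η : ℂ) * Complex.I) - E‖ = η := by
  rw [add_sub_cancel_left, norm_mul, Complex.norm_I, mul_one, Complex.norm_real,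
    Real.norm_of_nonneg hη]

/-- the density of states -/
theorem dos_lim {ka E : ℝ} (hka : 0 < ka) (hka1 : ka ≤ 1) (hE : Bulk ka E) :
    Tendsto (fun η : ℝ => ∫ k, η / ((ep k - E) ^ 2 + η ^ 2) ∂(νd 2)) (𝓝[>] 0)
    (𝓝 ((2 * Real.pi) ^ 2 * (mJ E).re)) := by
  have h1 : Tendsto (fun η : ℝ =>
      (∫ s in Ioi (0 : ℝ), k1 ((E : ℂ) + (η : ℂ) * Complex.I) s * HJ 2 s).re)
      (𝓝[>] 0) (𝓝 (mJ E).re) := by
    rw [tendsto_iff_norm_sub_tendsto_zero]
    refine squeeze_zero' (Eventually.of_forall fun _ => norm_nonneg _) ?_ (tend_pow (CH ka))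
    have h4 : ∀ᶠ η : ℝ in 𝓝[>] 0, η < ka / 2 := nhdsWithin_le_nhds (gt_mem_nhds (by positivity))
    filter_upwards [self_mem_nhdsWithin, h4] with η hη hη1
    have hη0 : 0 < η := hη
    have hN : Near ka E ((E : ℂ) + (η : ℂ) * Complex.I) :=
      ⟨hka, hka1, hE, by rw [shift_im]; exact hη0.le, by rw [shift_norm hη0.le]; exact hη1.le⟩
    have h5 := hN.diff
    rw [shift_norm hη0.le] at h5
    have hi : 0 < ((E : ℂ) + (η : ℂ) * Complex.I).im := by rw [shift_im]; exact hη0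
    rw [lap hi, ← Complex.sub_re, Real.norm_eq_abs]
    exact (Complex.abs_re_le_norm _).trans h5
  refine (h1.const_mul ((2 * Real.pi) ^ 2)).congr' ?_
  filter_upwards [self_mem_nhdsWithin] with η hη
  rw [← avg_pois (W := fun _ => 1) continuous_const (B := 1) (fun _ => by simp) int_one hη E]
  simp only [one_mul]

/-- the velocity weighted density of states, one direction -/
theorem vel_lim (i : Fin 2) (E : ℝ) : Tendsto (fun η : ℝ =>
    ∫ k, (2 * Real.sin (k i)) ^ 2 * (η / ((ep k - E) ^ 2 + η ^ 2)) ∂(νd 2)) (𝓝[>] 0)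
    (𝓝 ((2 * Real.pi) ^ 2 * (mS 2 E).re)) := by
  have h1 := (k1_lim (HS_cont 2) HS_bd E).const_mul ((2 * Real.pi) ^ 2)
  refine h1.congr' ?_
  filter_upwards [self_mem_nhdsWithin] with η hη
  rw [← avg_pois (W := fun k => (2 * Real.sin (k i)) ^ 2) (by fun_prop) (B := 4) (fun k => by
    rw [abs_of_nonneg (sq_nonneg _)]
    nlinarith [Real.sin_sq_add_cos_sq (k i), sq_nonneg (Real.cos (k i))]) (int_sin i) hη E]

theorem mJ_pos {ka E : ℝ} (hka : 0 < ka) (hka1 : ka ≤ 1) (hE : Bulk ka E) : 0 < (mJ E).re := by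
  obtain ⟨θ, r, c, hr, hc, h0, h1, hb⟩ := box_ex 1 le_rfl E (by
    have := hE.2
    push_cast
    linarith)
  have hpi := Real.pi_pos
  have h2 := dos_lim hka hka1 hE
  have h3 : (1 : ℝ) / 4 * r ^ 1 ≤ (2 * Real.pi) ^ 2 * (mJ E).re := by
    refine ge_of_tendsto h2 ?_
    have h4 : ∀ᶠ η : ℝ in 𝓝[>] 0, η < 1 := nhdsWithin_le_nhds (gt_mem_nhds one_pos)
    filter_upwards [self_mem_nhdsWithin, h4] with η hη hη1
    have h5 := lower (n := 1) (E := E) (r := r) (θ0 := θ) (c := 1) (B := 1) (W := fun _ => 1)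
      continuous_const (fun _ => zero_le_one) (fun _ => le_rfl) hr h0 h1 zero_le_one
      (fun k hk => ⟨le_rfl, (hb k hk).1⟩) hη hη1.le
    simpa only [one_mul] using h5
  have h4 : 0 < (1 : ℝ) / 4 * r ^ 1 := by positivity
  by_contra hcon
  push Not at hcon
  have := mul_nonpos_of_nonneg_of_nonpos (by positivity : 0 ≤ (2 * Real.pi) ^ 2) hcon
  linarith

theorem mS_pos (E : ℝ) (hE : |E| < 4) : 0 < (mS 2 E).re := by
  obtain ⟨θ, r, c, hr, hc, h0, h1, hb⟩ := box_ex 1 le_rfl E (by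
    push_cast
    linarith)
  have hpi := Real.pi_pos
  have h2 := vel_lim (0 : Fin 1).succ E
  have h3 : c / 4 * r ^ 1 ≤ (2 * Real.pi) ^ 2 * (mS 2 E).re := by
    refine ge_of_tendsto h2 ?_
    have h4 : ∀ᶠ η : ℝ in 𝓝[>] 0, η < 1 := nhdsWithin_le_nhds (gt_mem_nhds one_pos)
    filter_upwards [self_mem_nhdsWithin, h4] with η hη hη1
    exact lower (n := 1) (E := E) (r := r) (θ0 := θ) (c := c) (B := 4)
      (W := fun k => (2 * Real.sin (k 0)) ^ 2)
      (by fun_prop) (fun _ => sq_nonneg _) (fun k => by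
        nlinarith [Real.sin_sq_add_cos_sq (k 0), sq_nonneg (Real.cos (k 0))]) hr h0 h1 hc.le
      (fun k hk => ⟨(hb k hk).2 0, (hb k hk).1⟩) hη hη1.le
  have h4 : 0 < c / 4 * r ^ 1 := by positivity
  by_contra hcon
  push Not at hcon
  have := mul_nonpos_of_nonneg_of_nonpos (by positivity : 0 ≤ (2 * Real.pi) ^ 2) hcon
  linarith

/-- the set of bulk energies is compact -/
theorem bulk_compact (ka : ℝ) : IsCompact {E : ℝ | Bulk ka E} := by
  have h1 : {E : ℝ | Bulk ka E} = {E : ℝ | ka ≤ |E|} ∩ Icc (-(4 - ka)) (4 - ka) := by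
    ext E
    simp only [Set.mem_ofPred_eq, Set.mem_inter_iff, Set.mem_Icc, Bulk, abs_le]
  rw [h1, Set.inter_comm]
  exact isCompact_Icc.inter_right (isClosed_le continuous_const continuous_abs)

theorem mJ_contOn {ka : ℝ} (hka : 0 < ka) (hka1 : ka ≤ 1) :
    ContinuousOn (fun E : ℝ => (mJ E).re) {E : ℝ | Bulk ka E} := by
  intro E hE
  apply ContinuousAt.continuousWithinAt
  rw [ContinuousAt, tendsto_iff_norm_sub_tendsto_zero]
  have h1 : ∀ᶠ E' : ℝ in 𝓝 E, ‖(mJ E').re - (mJ E).re‖ ≤ CH ka * |E' - E| ^ (1 / 4 : ℝ) := by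
    have h2 : ∀ᶠ E' : ℝ in 𝓝 E, |E' - E| < ka / 2 := by
      have := Metric.ball_mem_nhds E (by positivity : 0 < ka / 2)
      filter_upwards [this] with E' hE'
      rwa [Metric.mem_ball, Real.dist_eq] at hE'
    filter_upwards [h2] with E' hE'
    have h4 : ‖(E' : ℂ) - E‖ = |E' - E| := by
      rw [← Complex.ofReal_sub, Complex.norm_real, Real.norm_eq_abs]
    have hN : Near ka E (E' : ℂ) := ⟨hka, hka1, hE, by simp, by rw [h4]; exact hE'.le⟩
    have h5 := hN.diff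
    rw [h4] at h5
    rw [← Complex.sub_re, Real.norm_eq_abs]
    exact (Complex.abs_re_le_norm _).trans h5
  refine squeeze_zero' (Eventually.of_forall fun _ => norm_nonneg _) h1 ?_
  have h3 : Continuous fun E' : ℝ => CH ka * |E' - E| ^ (1 / 4 : ℝ) := by
    refine continuous_const.mul ?_
    exact (Real.continuous_rpow_const (by norm_num)).comp (by fun_prop)
  have h4 := h3.tendsto E
  simpa using h4

theorem mJ_unif {ka : ℝ} (hka : 0 < ka) (hka1 : ka ≤ 1) :
    ∃ c0 : ℝ, 0 < c0 ∧ ∀ E : ℝ, Bulk ka E → c0 ≤ (mJ E).re := by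
  have hne : {E : ℝ | Bulk ka E}.Nonempty := ⟨2, by
    simp only [Set.mem_ofPred_eq, Bulk, abs_two]
    constructor <;> linarith⟩
  obtain ⟨E0, hE0, hmin⟩ := (bulk_compact ka).exists_isMinOn hne (mJ_contOn hka hka1)
  exact ⟨(mJ E0).re, mJ_pos hka hka1 hE0, fun E hE => hmin hE⟩

theorem mS_cont : Continuous fun E : ℝ => (mS 2 E).re := by
  rw [continuous_iff_continuousAt]
  intro E
  have h1 : ∀ E' : ℝ, |(mS 2 E').re - (mS 2 E).re| ≤ 3 * 72 * C54 * |E' - E| ^ (1 / 4 : ℝ) := by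
    intro E'
    have h2 := cmp2 (k1_cont (E' : ℂ)) (k1_cont E) (HS_cont 2)
      (fun s hs => k1_le2 (ζ := (E' : ℂ)) (by simp) hs) (fun s hs => k1_le2 (ζ := (E : ℂ)) (by simp) hs)
      (abs_nonneg (E' - E)) HS_bd
      (fun s hs => by
        have h3 := k1_diff (ζ := (E' : ℂ)) (by simp) E hs
        have h4 : ‖(E' : ℂ) - E‖ = |E' - E| := by
          rw [← Complex.ofReal_sub, Complex.norm_real, Real.norm_eq_abs]
        rw [h4] at h3
        have : 0 ≤ (s * |E' - E|) ^ (1 / 4 : ℝ) := by positivity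
        linarith)
    refine le_trans ?_ h2
    unfold mS
    rw [← Complex.sub_re]
    exact Complex.abs_re_le_norm _
  rw [ContinuousAt, tendsto_iff_norm_sub_tendsto_zero]
  refine squeeze_zero (fun _ => norm_nonneg _) (fun E' => h1 E') ?_
  have h3 : Continuous fun E' : ℝ => 3 * 72 * C54 * |E' - E| ^ (1 / 4 : ℝ) := by
    refine continuous_const.mul ?_
    exact (Real.continuous_rpow_const (by norm_num)).comp (by fun_prop)
  have h4 := h3.tendsto E
  simpa using h4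

theorem mS_unif {ka : ℝ} (hka : 0 < ka) (hka1 : ka ≤ 1) :
    ∃ c0 : ℝ, 0 < c0 ∧ ∀ E : ℝ, Bulk ka E → c0 ≤ (mS 2 E).re := by
  have hne : {E : ℝ | Bulk ka E}.Nonempty := ⟨2, by
    simp only [Set.mem_ofPred_eq, Bulk, abs_two]
    constructor <;> linarith⟩
  obtain ⟨E0, hE0, hmin⟩ := (bulk_compact ka).exists_isMinOn hne mS_cont.continuousOn
  have hE0' : Bulk ka E0 := hE0
  exact ⟨(mS 2 E0).re, mS_pos E0 (by linarith [hE0'.2]), fun E hE => hmin hE⟩

end Pool.Agent.Run7.h442.T2
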