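import Pool.Agent.Run7.h442.T2.Spr

/-! Few eigenvalues near the critical energies. -/

set_option autoImplicit false
set_option linter.unusedSectionVars false

open scoped BigOperators Matrix Topology
open MeasureTheory ProbabilityTheory

namespace Pool.Agent.Run7.h442.T2

open Pool.Agent.Run7.h47
open Pool.Agent.W788.MFP.Four Pool.Agent.W788.BK
open Pool.Agent.W788.MFP.Dos (a cnt)
open Pool.Agent.W788.MFP.Gm (Γ γ)

section

variable {d L : ℕ} [NeZero L]

/-- the Fourier transform of a translate -/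
theorem fc_shift (u : T d L → ℂ) (b k : T d L) :
    fc (fun x => u (x + b)) k = (starRingEnd ℂ) (e k b) * fc u k := by
  unfold fc
  rw [← Equiv.sum_comp (Equiv.subRight b) (fun x => u (x + b) * e k x), Finset.mul_sum]
  refine Finset.sum_congr rfl fun x _ => ?_
  simp only [Equiv.subRight_apply, sub_add_cancel]
  rw [sub_eq_add_neg, e_add, e_neg]
  ring

/-- the Fourier transform of the lattice Laplacian -/
theorem fc_adj (u : T d L → ℂ) (k : T d L) :
    fc (fun x => ∑ i, (u (x + Pi.single i 1) + u (x - Pi.single i 1))) k = adj k * fc u k := by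
  have h1 : fc (fun x => ∑ i, (u (x + Pi.single i 1) + u (x - Pi.single i 1))) k =
      ∑ i, (fc (fun x => u (x + Pi.single i 1)) k + fc (fun x => u (x - Pi.single i 1)) k) := by
    unfold fc
    simp only [Finset.sum_mul]
    rw [Finset.sum_comm]
    refine Finset.sum_congr rfl fun i _ => ?_
    rw [← Finset.sum_add_distrib]
    exact Finset.sum_congr rfl fun x _ => by ring
  rw [h1]
  unfold adj
  push_cast
  rw [Finset.sum_mul]
  refine Finset.sum_congr rfl fun i _ => ?_
  have h2 : fc (fun x => u (x - Pi.single i 1)) k = e k (Pi.single i 1) * fc u k := by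
    simp only [sub_eq_add_neg]
    rw [fc_shift, e_neg, Complex.conj_conj]
  rw [fc_shift, h2, e_single, ← add_mul]
  congr 1
  rw [add_comm, Complex.add_conj]
  push_cast
  rfl

theorem fc_sub (f g : T d L → ℂ) (k : T d L) : fc (fun x => f x - g x) k = fc f k - fc g k := by
  unfold fc
  rw [← Finset.sum_sub_distrib]
  exact Finset.sum_congr rfl fun x _ => by ring

theorem fc_smul (c : ℂ) (f : T d L → ℂ) (k : T d L) : fc (fun x => c * f x) k = c * fc f k := by
  unfold fc
  rw [Finset.mul_sum]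
  exact Finset.sum_congr rfl fun x _ => by ring

/-- one eigenvector -/
theorem one_eig {σ lam α : ℝ} {V : T d L → ℝ} {u : T d L → ℂ} (h : IsEig σ lam V u)
    (hα : 0 ≤ α) (K : Finset (T d L)) (hK : ∀ k, k ∉ K → α ≤ |adj k - lam|) :
    α ^ 2 * (∑ x, ‖u x‖ ^ 2 - (NN d L)⁻¹ * ∑ k ∈ K, ‖fc u k‖ ^ 2) ≤
      σ ^ 2 * ∑ x, V x ^ 2 * ‖u x‖ ^ 2 := by
  have hN := NN_pos (d := d) (L := L)
  have e1 : ∀ x, (lam : ℂ) * u x - ∑ i, (u (x + Pi.single i 1) + u (x - Pi.single i 1)) =
      σ * V x * u x := by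
    intro x
    rw [← h x]
    ring
  have e2 : ∑ x, ‖(lam : ℂ) * u x - ∑ i, (u (x + Pi.single i 1) + u (x - Pi.single i 1))‖ ^ 2 =
      σ ^ 2 * ∑ x, V x ^ 2 * ‖u x‖ ^ 2 := by
    rw [Finset.mul_sum]
    refine Finset.sum_congr rfl fun x _ => ?_
    rw [e1, norm_mul, norm_mul, Complex.norm_real, Complex.norm_real, mul_pow, mul_pow,
      Real.norm_eq_abs, Real.norm_eq_abs, sq_abs, sq_abs]
    ring
  have e5 := parseval_sq (fun x => (lam : ℂ) * u x -
    ∑ i, (u (x + Pi.single i 1) + u (x - Pi.single i 1)))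
  rw [← e2, e5, parseval_sq u]
  have e3 : ∀ k, fc (fun x => (lam : ℂ) * u x -
      ∑ i, (u (x + Pi.single i 1) + u (x - Pi.single i 1))) k =
      ((lam - adj k : ℝ) : ℂ) * fc u k := by
    intro k
    rw [fc_sub, fc_smul, fc_adj]
    push_cast
    ring
  simp only [e3, norm_mul, mul_pow, Complex.norm_real, Real.norm_eq_abs]
  rw [← mul_sub, mul_left_comm]
  refine mul_le_mul_of_nonneg_left ?_ (inv_nonneg.2 hN.le)
  have e4 : ∑ k, ‖fc u k‖ ^ 2 - ∑ k ∈ K, ‖fc u k‖ ^ 2 =
      ∑ k ∈ Finset.univ.filter (fun k => k ∉ K), ‖fc u k‖ ^ 2 := by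
    have h1 := Finset.sum_filter_add_sum_filter_not Finset.univ (fun k => k ∈ K)
      (fun k => ‖fc u k‖ ^ 2)
    have h2 : Finset.univ.filter (fun k => k ∈ K) = K := by
      ext k
      simp
    rw [h2] at h1
    linarith
  rw [e4, Finset.mul_sum]
  refine (Finset.sum_le_sum (s := Finset.univ.filter (fun k => k ∉ K))
    (g := fun k => |lam - adj k| ^ 2 * ‖fc u k‖ ^ 2) fun k hk => ?_).trans
    (Finset.sum_le_sum_of_subset_of_nonneg (Finset.filter_subset _ _)
      (fun k _ _ => by positivity))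
  have h3 := hK k (Finset.mem_filter.1 hk).2
  rw [abs_sub_comm] at h3
  gcongr

/-- **few eigenvalues away from the values of the symbol** -/
theorem few {ι : Type} [Fintype ι] {u : ι → EuclideanSpace ℂ (T d L)} (hu : Orthonormal ℂ u)
    {σ α : ℝ} {lam : ι → ℝ} {V : T d L → ℝ} (h : ∀ j, IsEig σ (lam j) V (u j))
    (hα : 0 ≤ α) (K : Finset (T d L)) (hK : ∀ j, ∀ k, k ∉ K → α ≤ |adj k - lam j|) :
    α ^ 2 * ((Fintype.card ι : ℝ) - K.card) ≤ σ ^ 2 * ∑ x, V x ^ 2 := by
  classical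
  have hN := NN_pos (d := d) (L := L)
  have h1 := Finset.sum_le_sum (s := Finset.univ) fun j (_ : j ∈ (Finset.univ : Finset ι)) =>
    one_eig (h j) hα K (hK j)
  have h2 : ∑ j, α ^ 2 * (∑ x, ‖u j x‖ ^ 2 - (NN d L)⁻¹ * ∑ k ∈ K, ‖fc (u j) k‖ ^ 2) =
      α ^ 2 * ((Fintype.card ι : ℝ) - ∑ k ∈ K, (NN d L)⁻¹ * ∑ j, ‖fc (u j) k‖ ^ 2) := by
    rw [← Finset.mul_sum, Finset.sum_sub_distrib]
    congr 2
    · simp only [on_norm hu]
      rw [Finset.sum_const, Finset.card_univ, nsmul_eq_mul, mul_one]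
    · rw [← Finset.mul_sum, Finset.sum_comm, Finset.mul_sum]
  have h3 : ∑ k ∈ K, (NN d L)⁻¹ * ∑ j, ‖fc (u j) k‖ ^ 2 ≤ K.card := by
    refine (Finset.sum_le_sum (g := fun _ => (1 : ℝ)) fun k _ => ?_).trans (le_of_eq (by
      rw [Finset.sum_const, nsmul_eq_mul, mul_one]))
    rw [inv_mul_le_iff₀ hN, mul_one]
    have h4 := Pool.Agent.Run7.h47.bessel hu (fun x => e k x)
    have h5 : ∑ x : T d L, ‖e k x‖ ^ 2 = NN d L := by
      simp only [norm_e, one_pow]
      rw [Finset.sum_const, Finset.card_univ, nsmul_eq_mul, mul_one, card_T]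
    rw [h5] at h4
    refine le_trans (le_of_eq ?_) h4
    refine Finset.sum_congr rfl fun j _ => ?_
    unfold fc
    congr 2
    exact Finset.sum_congr rfl fun x _ => mul_comm _ _
  have h6 : ∑ j, σ ^ 2 * ∑ x, V x ^ 2 * ‖u j x‖ ^ 2 ≤ σ ^ 2 * ∑ x, V x ^ 2 := by
    rw [← Finset.mul_sum]
    refine mul_le_mul_of_nonneg_left ?_ (sq_nonneg σ)
    rw [Finset.sum_comm]
    refine Finset.sum_le_sum fun x _ => ?_
    rw [← Finset.mul_sum]
    refine mul_le_of_le_one_right (sq_nonneg _) ?_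
    have h7 := Pool.Agent.Run7.h47.bessel hu (fun y => if y = x then 1 else 0)
    simp only [ite_mul, one_mul, zero_mul, Finset.sum_ite_eq', Finset.mem_univ, if_true] at h7
    refine h7.trans (le_of_eq ?_)
    rw [Finset.sum_eq_single x]
    · simp
    · intro y _ hy
      simp [hy]
    · intro h8
      exact absurd (Finset.mem_univ x) h8
  rw [h2] at h1
  refine le_trans ?_ (h1.trans h6)
  refine mul_le_mul_of_nonneg_left ?_ (sq_nonneg α)
  linarith

/-- the mean of the square of the potential -/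
theorem sq_mean : Integrable (fun V : T d L → ℝ => ∑ x, V x ^ 2) (Γ (T d L)) ∧
    ∫ V : T d L → ℝ, ∑ x, V x ^ 2 ∂(Γ (T d L)) = NN d L := by
  have h1 : ∀ x : T d L, Integrable (fun V : T d L → ℝ => V x ^ 2) (Γ (T d L)) := fun x =>
    ((measurePreserving_eval (fun _ : T d L => γ) x).integrable_comp_of_integrable
      (Pool.Agent.W788.MFP.Gm.int_pow 2))
  have h2 : ∀ x : T d L, ∫ V : T d L → ℝ, V x ^ 2 ∂(Γ (T d L)) = 1 := by
    intro x
    have h3 := (measurePreserving_eval (fun _ : T d L => γ) x).map_eq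
    have h4 : ∫ s, s ^ 2 ∂γ = 1 := by
      rw [Pool.Agent.W788.MFP.Gm.rec 1]
      simp
    rw [← h4]
    conv_rhs => rw [← h3]
    rw [integral_map (measurable_pi_apply x).aemeasurable (by fun_prop)]
  refine ⟨integrable_finsetSum _ fun x _ => h1 x, ?_⟩
  rw [integral_finsetSum _ fun x _ => h1 x]
  simp only [h2]
  rw [Finset.sum_const, Finset.card_univ, nsmul_eq_mul, mul_one, card_T]

end

/-- the momenta with energies near `0` or `± 4` -/
theorem crit_card {L : ℕ} [NeZero L] {r : ℝ} (hr : 0 < r) (hr1 : r ≤ 1 / 2)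
    (hL : 1 / (L : ℝ) ≤ r) :
    ((Finset.univ.filter fun k : T 2 L => |adj k| ≤ r ∨ 4 - r ≤ |adj k|).card : ℝ) ≤
      1248 * Real.sqrt r * NN 2 L := by
  classical
  have hlog : Real.log (1 / r) * r ≤ 2 * Real.sqrt r := by
    have h1 := log_bd (δ := r) (a := 1 / 2) hr (by norm_num)
    have h2 : r ^ (-(1 / 2) : ℝ) * r = Real.sqrt r := by
      nth_rewrite 2 [← Real.rpow_one r]
      rw [← Real.rpow_add hr, Real.sqrt_eq_rpow]
      norm_num
    calc Real.log (1 / r) * r ≤ r ^ (-(1 / 2) : ℝ) / (1 / 2) * r := by gcongr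
      _ = 2 * (r ^ (-(1 / 2) : ℝ) * r) := by ring
      _ = _ := by rw [h2]
  have hc : ∀ t : ℝ, cnt L 2 t r ≤ 416 * Real.sqrt r * NN 2 L := by
    intro t
    refine (Pool.Agent.W788.MF2.Dos2d.cnt2 r hL hr1 t r le_rfl (by linarith)).trans ?_
    have hN : (0 : ℝ) ≤ (L : ℝ) ^ 2 := by positivity
    calc 208 * Real.log (1 / r) * r * (L : ℝ) ^ 2 = 208 * (Real.log (1 / r) * r) * (L : ℝ) ^ 2 := by
          ring
      _ ≤ 208 * (2 * Real.sqrt r) * (L : ℝ) ^ 2 := by gcongr
      _ = _ := by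
          unfold NN
          ring
  have hadj : ∀ k : T 2 L, |adj k| ≤ 4 := by
    intro k
    unfold adj
    rw [Fin.sum_univ_two]
    have h1 : ∀ q : ZMod L, |2 * (ZMod.stdAddChar q : ℂ).re| ≤ 2 := by
      intro q
      rw [abs_mul, abs_two]
      have := Complex.abs_re_le_norm (ZMod.stdAddChar q : ℂ)
      rw [char_norm] at this
      linarith
    exact (abs_add_le _ _).trans (by linarith [h1 (k 0), h1 (k 1)])
  have hsub : (Finset.univ.filter fun k : T 2 L => |adj k| ≤ r ∨ 4 - r ≤ |adj k|) ⊆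
      (Finset.univ.filter fun k : T 2 L => |adj k - 0| ≤ r) ∪
      ((Finset.univ.filter fun k : T 2 L => |adj k - 4| ≤ r) ∪
      (Finset.univ.filter fun k : T 2 L => |adj k - (-4)| ≤ r)) := by
    intro k hk
    rw [Finset.mem_filter] at hk
    simp only [Finset.mem_union, Finset.mem_filter, Finset.mem_univ, true_and, sub_zero]
    rcases hk.2 with h | h
    · exact Or.inl h
    · right
      have h4 := hadj k
      rcases le_total 0 (adj k) with h5 | h5
      · left
        rw [abs_of_nonneg h5] at h h4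
        rw [abs_le]
        constructor <;> linarith
      · right
        rw [abs_of_nonpos h5] at h h4
        rw [abs_le]
        constructor <;> linarith
  have h1 := Finset.card_le_card hsub
  have h2 := Finset.card_union_le (Finset.univ.filter fun k : T 2 L => |adj k - 0| ≤ r)
    ((Finset.univ.filter fun k : T 2 L => |adj k - 4| ≤ r) ∪
      (Finset.univ.filter fun k : T 2 L => |adj k - (-4)| ≤ r))
  have h3 := Finset.card_union_le (Finset.univ.filter fun k : T 2 L => |adj k - 4| ≤ r)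
    (Finset.univ.filter fun k : T 2 L => |adj k - (-4)| ≤ r)
  have h4 : ((Finset.univ.filter fun k : T 2 L => |adj k| ≤ r ∨ 4 - r ≤ |adj k|).card : ℝ) ≤
      cnt L 2 0 r + (cnt L 2 4 r + cnt L 2 (-4) r) := by
    unfold cnt
    exact_mod_cast h1.trans (h2.trans (Nat.add_le_add_left h3 _))
  refine h4.trans ?_
  have := hc 0
  have := hc 4
  have := hc (-4)
  linarith

end Pool.Agent.Run7.h442.T2
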