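import Pool.Agent.Run7.h442.T2.Zm
import Pool.Agent.Run7.h442.T2.Pos

/-! Quantum diffusion in dimension two, assembled. -/

set_option autoImplicit false
set_option linter.unusedSectionVars false

open scoped BigOperators Topology
open MeasureTheory ProbabilityTheory Filter

namespace Pool.Agent.Run7.h442.T2

open Pool.Agent.Run7.h47
open Pool.Agent.H4R2.LO (Zd)

theorem rho_lim {ka E : ℝ} (hka : 0 < ka) (hka1 : ka ≤ 1) (hE : Bulk ka E) : Tendsto (fun η : ℝ =>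
    Real.pi⁻¹ * ((2 * Real.pi) ^ 2)⁻¹ * ∫ k in Set.Icc (0 : Fin 2 → ℝ) (fun _ => 2 * Real.pi),
      η / ((∑ i, 2 * Real.cos (k i) - E) ^ 2 + η ^ 2)) (𝓝[>] 0) (𝓝 ((mJ E).re / Real.pi)) := by
  have hpi := Real.pi_pos
  have h1 := (dos_lim hka hka1 hE).const_mul (Real.pi⁻¹ * ((2 * Real.pi) ^ 2)⁻¹)
  rw [νd_eq] at h1
  have h2 : Real.pi⁻¹ * ((2 * Real.pi) ^ 2)⁻¹ * ((2 * Real.pi) ^ 2 * (mJ E).re) =
      (mJ E).re / Real.pi := by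
    field_simp
  rw [h2] at h1
  exact h1

theorem w_lim (E : ℝ) : Tendsto (fun η : ℝ =>
    Real.pi⁻¹ * ((2 * Real.pi) ^ 2)⁻¹ * ∫ k in Set.Icc (0 : Fin 2 → ℝ) (fun _ => 2 * Real.pi),
      ((∑ i, (2 * Real.sin (k i)) ^ 2) / 2) *
      (η / ((∑ i, 2 * Real.cos (k i) - E) ^ 2 + η ^ 2))) (𝓝[>] 0)
      (𝓝 ((mS 2 E).re / Real.pi)) := by
  have hpi := Real.pi_pos
  have h1 := (tendsto_finsetSum (Finset.univ : Finset (Fin 2)) fun i _ =>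
    vel_lim i E).const_mul ((2 : ℝ)⁻¹ * (Real.pi⁻¹ * ((2 * Real.pi) ^ 2)⁻¹))
  rw [νd_eq] at h1
  have h2 : (2 : ℝ)⁻¹ * (Real.pi⁻¹ * ((2 * Real.pi) ^ 2)⁻¹) *
      ∑ _i : Fin 2, (2 * Real.pi) ^ 2 * (mS 2 E).re = (mS 2 E).re / Real.pi := by
    rw [Finset.sum_const, Finset.card_univ, Fintype.card_fin, nsmul_eq_mul]
    push_cast
    field_simp
  rw [h2] at h1
  refine h1.congr' ?_
  filter_upwards [self_mem_nhdsWithin] with η hη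
  have hη0 : (0 : ℝ) < η := hη
  have hcont : ∀ i : Fin 2, IntegrableOn (fun k : Fin 2 → ℝ => (2 * Real.sin (k i)) ^ 2 *
      (η / ((∑ i, 2 * Real.cos (k i) - E) ^ 2 + η ^ 2)))
      (Set.Icc (0 : Fin 2 → ℝ) (fun _ => 2 * Real.pi)) := by
    intro i
    apply Continuous.integrableOn_Icc
    refine Continuous.mul (by fun_prop) (pois_cont hη0 (by fun_prop))
  have h3 : ∀ k : Fin 2 → ℝ, ((∑ i, (2 * Real.sin (k i)) ^ 2) / 2) *
      (η / ((∑ i, 2 * Real.cos (k i) - E) ^ 2 + η ^ 2)) =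
      (2 : ℝ)⁻¹ * ∑ i, (2 * Real.sin (k i)) ^ 2 *
      (η / ((∑ i, 2 * Real.cos (k i) - E) ^ 2 + η ^ 2)) := by
    intro k
    obtain ⟨q, hq⟩ : ∃ q, q = η / ((∑ i, 2 * Real.cos (k i) - E) ^ 2 + η ^ 2) := ⟨_, rfl⟩
    rw [← hq, Finset.mul_sum, Finset.sum_div, Finset.sum_mul]
    refine Finset.sum_congr rfl fun i _ => ?_
    ring
  simp only [h3]
  rw [integral_const_mul, integral_finsetSum _ fun i _ => hcont i]
  unfold ep
  ring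

/-- **quantum diffusion** -/
theorem qdiff (a b : ℝ) (ha : 0 < a) (hb : b < 4) (κ : ℝ) (hκ0 : 0 < κ) (hκ : κ < 2 / 15) :
    ∃ ρ w : ℝ → ℝ,
      (∀ E : ℝ, a ≤ |E| → |E| ≤ b → 0 < ρ E ∧ 0 < w E ∧
        Tendsto (fun η : ℝ => Real.pi⁻¹ * ((2 * Real.pi) ^ 2)⁻¹ *
          ∫ k in Set.Icc (0 : Fin 2 → ℝ) (fun _ => 2 * Real.pi),
            η / ((∑ i, 2 * Real.cos (k i) - E) ^ 2 + η ^ 2)) (𝓝[>] 0) (𝓝 (ρ E)) ∧
        Tendsto (fun η : ℝ => Real.pi⁻¹ * ((2 * Real.pi) ^ 2)⁻¹ *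
          ∫ k in Set.Icc (0 : Fin 2 → ℝ) (fun _ => 2 * Real.pi),
            ((∑ i, (2 * Real.sin (k i)) ^ 2) / 2) *
            (η / ((∑ i, 2 * Real.cos (k i) - E) ^ 2 + η ^ 2))) (𝓝[>] 0) (𝓝 (w E))) ∧
      ∀ M ε : ℝ, 0 ≤ M → 0 < ε → ∃ s : ℝ, 0 < s ∧ ∀ σ E t : ℝ, 0 < |σ| → |σ| ≤ s → a ≤ |E| → |E| ≤ b →
        |σ| ^ (2 + κ) ≤ t → t ≤ s * σ ^ 2 → ∀ P : Fin 2 → ℝ, (∀ i, |P i| ≤ M) →
        ∀ G : (Zd 2 → ℝ) → Zd 2 → ℂ,
        (∀ ω, IsGreen 2 σ ((E : ℂ) + (t : ℂ) * Complex.I) ω (G ω)) →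
        Integrable (fun ω => ‖(t : ℂ) * (∑' x : Zd 2,
          Complex.exp (Complex.I * ((∑ i, |σ| * Real.sqrt t * P i * x i : ℝ) : ℂ)) *
            ((‖G ω x‖ ^ 2 : ℝ) : ℂ)) -
          ((Real.pi * ρ E / (1 + (∑ i, P i ^ 2) * (w E / (4 * Real.pi * ρ E ^ 2))) : ℝ) : ℂ)‖ ^ 2)
          (Measure.infinitePi fun _ : Zd 2 => gaussianReal 0 1) ∧
        ∫ ω, ‖(t : ℂ) * (∑' x : Zd 2,
          Complex.exp (Complex.I * ((∑ i, |σ| * Real.sqrt t * P i * x i : ℝ) : ℂ)) *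
            ((‖G ω x‖ ^ 2 : ℝ) : ℂ)) -
          ((Real.pi * ρ E / (1 + (∑ i, P i ^ 2) * (w E / (4 * Real.pi * ρ E ^ 2))) : ℝ) : ℂ)‖ ^ 2
          ∂(Measure.infinitePi fun _ : Zd 2 => gaussianReal 0 1) ≤ ε := by
  have hpi := Real.pi_pos
  obtain ⟨ka, hkad⟩ : ∃ ka, ka = min (min a (4 - b)) 1 := ⟨_, rfl⟩
  have hka : 0 < ka := by
    rw [hkad]
    exact lt_min (lt_min ha (by linarith)) one_pos
  have hka1 : ka ≤ 1 := by rw [hkad]; exact min_le_right _ _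
  have hB : ∀ E : ℝ, a ≤ |E| → |E| ≤ b → Bulk ka E := by
    intro E h1 h2
    have h3 : ka ≤ a := by rw [hkad]; exact (min_le_left _ _).trans (min_le_left _ _)
    have h4 : ka ≤ 4 - b := by rw [hkad]; exact (min_le_left _ _).trans (min_le_right _ _)
    exact ⟨h3.trans h1, by linarith⟩
  obtain ⟨c0, hc0, hJ⟩ := mJ_unif hka hka1
  have hS : ∀ E : ℝ, Bulk ka E → 0 < (mS 2 E).re := fun E hE => mS_pos E (by
    have := hE.2
    linarith)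
  refine ⟨fun E => (mJ E).re / Real.pi, fun E => (mS 2 E).re / Real.pi, ?_, ?_⟩
  · intro E hE1 hE2
    have hE := hB E hE1 hE2
    exact ⟨div_pos (hc0.trans_le (hJ E hE)) hpi, div_pos (hS E hE) hpi, rho_lim hka hka1 hE,
      w_lim E⟩
  · intro M ε hM hε
    obtain ⟨s, hs, _, H⟩ := z_lim ka hka hka1 κ hκ0 hκ c0 hc0 hJ (fun E hE => (hS E hE).le) M hM ε hε
    refine ⟨s, hs, ?_⟩
    intro σ E t hσ hσs hE1 hE2 htl htu P hP G hG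
    have hE := hB E hE1 hE2
    obtain ⟨_, h1, h2⟩ := H σ E t hσ hσs hE htl htu P hP G hG
    have hJ0 : 0 < (mJ E).re := hc0.trans_le (hJ E hE)
    have hS0 := hS E hE
    have e1 : Real.pi * ((mJ E).re / Real.pi) / (1 + (∑ i, P i ^ 2) *
        ((mS 2 E).re / Real.pi / (4 * Real.pi * ((mJ E).re / Real.pi) ^ 2))) =
        Dl (mJ E).re (mS 2 E).re (∑ i, P i ^ 2) := by
      have hq : 0 ≤ ∑ i, P i ^ 2 := by positivity
      unfold Dl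
      have h3 : 1 / (mJ E).re + (∑ i, P i ^ 2) * (mS 2 E).re / (4 * (mJ E).re ^ 3) =
          (1 + (∑ i, P i ^ 2) * ((mS 2 E).re / Real.pi /
            (4 * Real.pi * ((mJ E).re / Real.pi) ^ 2))) / (mJ E).re := by
        field_simp
      rw [h3, one_div_div]
      congr 1
      field_simp
    rw [e1]
    exact ⟨h1, h2⟩

end Pool.Agent.Run7.h442.T2
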