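import Pool.Agent.Run7.h442.T2.Bes
import Pool.Agent.Run7.h47.Free

/-! The free resolvent in dimension two, at energies inside the bands. -/

set_option autoImplicit false
set_option linter.unusedSectionVars false

open scoped BigOperators Matrix
open MeasureTheory Set

namespace Pool.Agent.Run7.h442.T2

open Pool.Agent.Run7.h47
open Pool.Agent.W788.MFP.Four Pool.Agent.W788.MFP.Dos
open Pool.Agent.W918.BK.Osc (U U_cont U_norm U_lip U_hasDeriv full)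

/-- energies inside the bands -/
def Bulk (ka E : ℝ) : Prop := ka ≤ |E| ∧ |E| ≤ 4 - ka

theorem HJ_eq (s : ℝ) : HJ 2 s = ((yy s : ℝ) : ℂ) := by
  unfold HJ yy
  rw [WJ_real]
  push_cast
  rfl

theorem HJ_bd (s : ℝ) (hs : 0 ≤ s) : ‖HJ 2 s‖ ≤ 9 / (1 + s) := by
  unfold HJ
  rw [norm_pow]
  calc ‖WJ s‖ ^ 2 ≤ (3 / Real.sqrt (1 + s)) ^ 2 :=
        pow_le_pow_left₀ (norm_nonneg _) (WJ_bd s hs) 2
    _ = 9 / (1 + s) := by
        rw [div_pow, Real.sq_sqrt (by linarith)]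
        norm_num

theorem HS_bd (s : ℝ) (hs : 0 ≤ s) : ‖HS 2 s‖ ≤ 72 * (s + 1) ^ (-(3 / 2) : ℝ) := by
  unfold HS
  rw [norm_mul, norm_pow, pow_one]
  have hs1 : (0 : ℝ) < s + 1 := by linarith
  have h1 := WJ_bd s hs
  have h2 := WS_bd s hs
  have h3 : (Real.sqrt (1 + s))⁻¹ * (1 + s)⁻¹ = (s + 1) ^ (-(3 / 2) : ℝ) := by
    rw [add_comm 1 s, Real.sqrt_eq_rpow, ← Real.rpow_neg hs1.le]
    nth_rewrite 2 [← Real.rpow_one (s + 1)]
    rw [← Real.rpow_neg hs1.le, ← Real.rpow_add hs1]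
    norm_num
  calc ‖WJ s‖ * ‖WS s‖ ≤ 3 / Real.sqrt (1 + s) * (8 / (1 + s)) := by gcongr
    _ = 24 * ((Real.sqrt (1 + s))⁻¹ * (1 + s)⁻¹) := by ring
    _ ≤ 72 * ((Real.sqrt (1 + s))⁻¹ * (1 + s)⁻¹) := by gcongr; norm_num
    _ = _ := by rw [h3]

theorem J_comp (L : ℕ) [NeZero L] (s : ℝ) (hs : 0 ≤ s) :
    ‖JL L s ^ 2 - HJ 2 s‖ ≤ 16 * Real.pi * (2 : ℕ) / L * (1 + s) := by
  have hLR : (0 : ℝ) < L := by exact_mod_cast Nat.pos_of_ne_zero (NeZero.ne L)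
  have hpi := Real.pi_pos
  unfold HJ
  refine (pow_sub _ _ (JL_le_one L s) (WJ_le_one s) 2).trans ?_
  have h1 := JL_sub L s
  rw [abs_of_nonneg hs] at h1
  calc ((2 : ℕ) : ℝ) * ‖JL L s - WJ s‖ ≤ (2 : ℕ) * (4 * Real.pi * s / L) := by gcongr
    _ = 4 * Real.pi * (2 : ℕ) / L * s := by ring
    _ ≤ 16 * Real.pi * (2 : ℕ) / L * (1 + s) := by
        have h2 : 4 * Real.pi * (2 : ℕ) / L ≤ 16 * Real.pi * (2 : ℕ) / L := by
          gcongr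
          norm_num
        exact mul_le_mul h2 (by linarith) hs (by positivity)

theorem S_comp (L : ℕ) [NeZero L] (s : ℝ) (hs : 0 ≤ s) :
    ‖JL L s ^ (2 - 1) * SL L s - HS 2 s‖ ≤ 16 * Real.pi * (2 : ℕ) / L * (1 + s) := by
  have hLR : (0 : ℝ) < L := by exact_mod_cast Nat.pos_of_ne_zero (NeZero.ne L)
  have hpi := Real.pi_pos
  unfold HS
  have e1 : JL L s ^ (2 - 1) * SL L s - WJ s ^ (2 - 1) * WS s =
      JL L s * (SL L s - WS s) + (JL L s - WJ s) * WS s := by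
    rw [Nat.add_one_sub_one, pow_one, pow_one]
    ring
  rw [e1]
  refine (norm_add_le _ _).trans ?_
  rw [norm_mul, norm_mul]
  have h1 := JL_sub L s
  have h2 := SL_sub L s
  rw [abs_of_nonneg hs] at h1 h2
  have h4 := JL_le_one L s
  have h5 := WS_le_four s
  calc ‖JL L s‖ * ‖SL L s - WS s‖ + ‖JL L s - WJ s‖ * ‖WS s‖ ≤
      1 * (16 * Real.pi * (1 + s) / L) + (4 * Real.pi * s / L) * 4 := by gcongr
    _ = 16 * Real.pi / L * ((1 + s) + s) := by ring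
    _ ≤ 16 * Real.pi / L * ((2 : ℕ) * (1 + s)) := by
        refine mul_le_mul_of_nonneg_left ?_ (by positivity)
        push_cast
        linarith
    _ = _ := by ring

/-! ### The limit of the diagonal -/

/-- the Laplace variable -/
noncomputable def cz (ζ : ℂ) : ℂ := Complex.I * (starRingEnd ℂ) ζ

/-- the regular part -/
noncomputable def Hc (ζ : ℂ) : ℂ := ∫ s in Ioi (0 : ℝ), k1 ζ s * ((hh s : ℝ) : ℂ)

/-- the numerator -/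
noncomputable def Nu (ζ : ℂ) : ℂ := Hc ζ + 12 + cz ζ ^ 2

/-- the denominator -/
noncomputable def qu (ζ : ℂ) : ℂ := cz ζ ^ 3 + 16 * cz ζ

/-- the limit of the diagonal -/
noncomputable def mJ (E0 : ℝ) : ℂ := Nu (E0 : ℂ) / qu (E0 : ℂ)

theorem hh_bd' (s : ℝ) (hs : 0 ≤ s) : ‖((hh s : ℝ) : ℂ)‖ ≤ 512 * (s + 1) ^ (-(3 / 2) : ℝ) := by
  rw [Complex.norm_real, Real.norm_eq_abs]
  exact hh_bd s hs

theorem hh_cont' : Continuous fun s : ℝ => ((hh s : ℝ) : ℂ) := by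
  have := hh_cont
  fun_prop

theorem Hc_bd {ζ : ℂ} (hζ : 0 ≤ ζ.im) : ‖Hc ζ‖ ≤ 2 * (512 * C32) :=
  gbd (fun s hs => k1_le2 hζ hs) hh_bd'

theorem Hc_diff {ζ : ℂ} (hζ : 0 ≤ ζ.im) (E0 : ℝ) :
    ‖Hc ζ - Hc (E0 : ℂ)‖ ≤ 3 * 512 * C54 * ‖ζ - E0‖ ^ (1 / 4 : ℝ) :=
  cmp2 (k1_cont ζ) (k1_cont E0) hh_cont' (fun s hs => k1_le2 hζ hs)
    (fun s hs => k1_le2 (ζ := (E0 : ℂ)) (by simp) hs) (norm_nonneg (ζ - E0)) hh_bd'
    (fun s hs => (k1_diff hζ E0 hs).trans (by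
      have : 0 ≤ (s * ‖ζ - E0‖) ^ (1 / 4 : ℝ) := by positivity
      linarith))

theorem cz_norm (ζ : ℂ) : ‖cz ζ‖ = ‖ζ‖ := by
  unfold cz
  rw [norm_mul, Complex.norm_I, one_mul, RCLike.norm_conj]

theorem cz_sub (ζ : ℂ) (E0 : ℝ) : ‖cz ζ - cz (E0 : ℂ)‖ = ‖ζ - E0‖ := by
  have : cz ζ - cz (E0 : ℂ) = cz (ζ - E0) := by
    unfold cz
    rw [map_sub]
    ring
  rw [this, cz_norm]

/-- closeness to a bulk energy -/
structure Near (ka E0 : ℝ) (ζ : ℂ) : Prop where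
  hka : 0 < ka
  hka1 : ka ≤ 1
  hE : Bulk ka E0
  im : 0 ≤ ζ.im
  hd : ‖ζ - E0‖ ≤ ka / 2

theorem Near.self {ka E0 : ℝ} (hka : 0 < ka) (hka1 : ka ≤ 1) (hE : Bulk ka E0) :
    Near ka E0 (E0 : ℂ) :=
  ⟨hka, hka1, hE, by simp, by rw [sub_self, norm_zero]; linarith⟩

theorem Near.norm_le {ka E0 : ℝ} {ζ : ℂ} (h : Near ka E0 ζ) : ‖cz ζ‖ ≤ 4 := by
  rw [cz_norm]
  have h1 : ‖ζ‖ ≤ ‖ζ - E0‖ + ‖(E0 : ℂ)‖ := by
    have := norm_add_le (ζ - E0) (E0 : ℂ)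
    rwa [sub_add_cancel] at this
  rw [Complex.norm_real, Real.norm_eq_abs] at h1
  have h2 := h.hE.2
  have h3 := h.hd
  have h4 := h.hka
  linarith

theorem Near.Nu_bd {ka E0 : ℝ} {ζ : ℂ} (h : Near ka E0 ζ) : ‖Nu ζ‖ ≤ 1024 * C32 + 28 := by
  unfold Nu
  refine norm_add₃_le.trans ?_
  have h1 := Hc_bd h.im
  have h2 := h.norm_le
  rw [norm_pow]
  have h3 : ‖(12 : ℂ)‖ = 12 := by simp
  rw [h3]
  have h4 : ‖cz ζ‖ ^ 2 ≤ 4 ^ 2 := by gcongr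
  linarith

theorem qu_eq (ζ : ℂ) : qu ζ = cz ζ * ((cz ζ - 4 * Complex.I) * (cz ζ + 4 * Complex.I)) := by
  unfold qu
  have := Complex.I_sq
  linear_combination (16 * cz ζ) * this

theorem Near.qu_ge {ka E0 : ℝ} {ζ : ℂ} (h : Near ka E0 ζ) : ka ^ 3 / 8 ≤ ‖qu ζ‖ := by
  have h0 := h.hka
  have hE1 := h.hE.1
  have hE2 := h.hE.2
  have hd := h.hd
  rw [qu_eq, norm_mul, norm_mul]
  have key : ∀ w : ℂ, ∀ r : ℝ, ka ≤ r → ‖cz (E0 : ℂ) - w‖ = r → ka / 2 ≤ ‖cz ζ - w‖ := by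
    intro w r hr hw
    have h1 : ‖cz (E0 : ℂ) - w‖ ≤ ‖cz ζ - cz (E0 : ℂ)‖ + ‖cz ζ - w‖ := by
      have h2 := norm_sub_le (cz ζ - w) (cz ζ - cz (E0 : ℂ))
      have h3 : (cz ζ - w) - (cz ζ - cz (E0 : ℂ)) = cz (E0 : ℂ) - w := by ring
      rw [h3] at h2
      linarith
    rw [cz_sub, hw] at h1
    linarith
  have hcE : cz (E0 : ℂ) = Complex.I * E0 := by
    unfold cz
    simp
  have k0 := key 0 |E0| hE1 (by
    rw [hcE, sub_zero, norm_mul, Complex.norm_I, one_mul, Complex.norm_real, Real.norm_eq_abs])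
  have k1 := key (4 * Complex.I) |E0 - 4| (by
    have := neg_abs_le (E0 - 4)
    have h5 := le_abs_self E0
    linarith) (by
    rw [hcE]
    have : Complex.I * (E0 : ℂ) - 4 * Complex.I = Complex.I * ((E0 - 4 : ℝ) : ℂ) := by
      push_cast
      ring
    rw [this, norm_mul, Complex.norm_I, one_mul, Complex.norm_real, Real.norm_eq_abs])
  have k2 := key (-(4 * Complex.I)) |E0 + 4| (by
    have := le_abs_self (E0 + 4)
    have h5 := neg_abs_le E0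
    linarith) (by
    rw [hcE]
    have : Complex.I * (E0 : ℂ) - -(4 * Complex.I) = Complex.I * ((E0 + 4 : ℝ) : ℂ) := by
      push_cast
      ring
    rw [this, norm_mul, Complex.norm_I, one_mul, Complex.norm_real, Real.norm_eq_abs])
  rw [sub_zero] at k0
  rw [sub_neg_eq_add] at k2
  calc ka ^ 3 / 8 = ka / 2 * (ka / 2 * (ka / 2)) := by ring
    _ ≤ _ := by gcongr

theorem Near.frac_bd {ka E0 : ℝ} {ζ : ℂ} (h : Near ka E0 ζ) :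
    ‖Nu ζ / qu ζ‖ ≤ (1024 * C32 + 28) * 8 / ka ^ 3 := by
  have h0 := h.hka
  have hC := C32_nonneg
  rw [norm_div]
  calc ‖Nu ζ‖ / ‖qu ζ‖ ≤ (1024 * C32 + 28) / (ka ^ 3 / 8) :=
        div_le_div₀ (by positivity) h.Nu_bd (by positivity) h.qu_ge
    _ = _ := by field_simp

/-- the constant of Hölder continuity -/
noncomputable def CH (ka : ℝ) : ℝ :=
  3 * 72 * C54 + (1536 * C54 + 8) * 8 / ka ^ 3 + (1024 * C32 + 28) * 4096 / ka ^ 6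

theorem CH_ge {ka : ℝ} (h : 0 < ka) : 3 * 72 * C54 ≤ CH ka := by
  unfold CH
  have := C54_nonneg
  have := C32_nonneg
  have h1 : 0 ≤ (1536 * C54 + 8) * 8 / ka ^ 3 := by positivity
  have h2 : 0 ≤ (1024 * C32 + 28) * 4096 / ka ^ 6 := by positivity
  linarith

theorem CH_nonneg {ka : ℝ} (h : 0 < ka) : 0 ≤ CH ka :=
  le_trans (by have := C54_nonneg; positivity) (CH_ge h)

theorem Near.diff {ka E0 : ℝ} {ζ : ℂ} (h : Near ka E0 ζ) :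
    ‖Nu ζ / qu ζ - mJ E0‖ ≤ CH ka * ‖ζ - E0‖ ^ (1 / 4 : ℝ) := by
  have h0 := h.hka
  have hC32 := C32_nonneg
  have hC54 := C54_nonneg
  have hs := Near.self h.hka h.hka1 h.hE
  obtain ⟨w, hw⟩ : ∃ w, w = ‖ζ - E0‖ := ⟨_, rfl⟩
  have hw0 : 0 ≤ w := by rw [hw]; exact norm_nonneg _
  have hw1 : w ≤ 1 := by
    have := h.hd
    have := h.hka1
    rw [hw]
    linarith
  have hwq : w ≤ w ^ (1 / 4 : ℝ) := min_le hw0 hw1
  have n1 := h.norm_le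
  have n2 := hs.norm_le
  have hcd : ‖cz ζ - cz (E0 : ℂ)‖ = w := by rw [cz_sub, hw]
  have hN : ‖Nu ζ - Nu (E0 : ℂ)‖ ≤ (1536 * C54 + 8) * w ^ (1 / 4 : ℝ) := by
    have e1 : Nu ζ - Nu (E0 : ℂ) = (Hc ζ - Hc (E0 : ℂ)) +
        (cz ζ - cz (E0 : ℂ)) * (cz ζ + cz (E0 : ℂ)) := by
      unfold Nu
      ring
    rw [e1]
    refine (norm_add_le _ _).trans ?_
    rw [norm_mul, hcd]
    have h1 := Hc_diff h.im E0
    rw [← hw] at h1
    have h2 : ‖cz ζ + cz (E0 : ℂ)‖ ≤ 8 := (norm_add_le _ _).trans (by linarith)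
    calc ‖Hc ζ - Hc (E0 : ℂ)‖ + w * ‖cz ζ + cz (E0 : ℂ)‖ ≤
        3 * 512 * C54 * w ^ (1 / 4 : ℝ) + w ^ (1 / 4 : ℝ) * 8 := by gcongr
      _ = _ := by ring
  have hq : ‖qu (E0 : ℂ) - qu ζ‖ ≤ 64 * w ^ (1 / 4 : ℝ) := by
    have e1 : qu (E0 : ℂ) - qu ζ = -((cz ζ - cz (E0 : ℂ)) *
        (cz ζ ^ 2 + cz ζ * cz (E0 : ℂ) + cz (E0 : ℂ) ^ 2 + 16)) := by
      unfold qu
      ring
    rw [e1, norm_neg, norm_mul, hcd]
    have h2 : ‖cz ζ ^ 2 + cz ζ * cz (E0 : ℂ) + cz (E0 : ℂ) ^ 2 + 16‖ ≤ 64 := by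
      have h3 := norm_add_le (cz ζ ^ 2 + cz ζ * cz (E0 : ℂ) + cz (E0 : ℂ) ^ 2) (16 : ℂ)
      have h4 := norm_add₃_le (a := cz ζ ^ 2) (b := cz ζ * cz (E0 : ℂ)) (c := cz (E0 : ℂ) ^ 2)
      rw [norm_pow, norm_pow, norm_mul] at h4
      have h5 : ‖(16 : ℂ)‖ = 16 := by simp
      rw [h5] at h3
      have h6 : ‖cz ζ‖ ^ 2 ≤ 4 ^ 2 := by gcongr
      have h7 : ‖cz (E0 : ℂ)‖ ^ 2 ≤ 4 ^ 2 := by gcongr
      have h8 : ‖cz ζ‖ * ‖cz (E0 : ℂ)‖ ≤ 4 * 4 := by gcongr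
      linarith
    calc w * ‖cz ζ ^ 2 + cz ζ * cz (E0 : ℂ) + cz (E0 : ℂ) ^ 2 + 16‖ ≤ w ^ (1 / 4 : ℝ) * 64 := by
          gcongr
      _ = _ := by ring
  have g1 := h.qu_ge
  have g2 := hs.qu_ge
  have hq0 : 0 < ‖qu ζ‖ := lt_of_lt_of_le (by positivity) g1
  have hq1 : 0 < ‖qu (E0 : ℂ)‖ := lt_of_lt_of_le (by positivity) g2
  have e2 : Nu ζ / qu ζ - mJ E0 = (Nu ζ - Nu (E0 : ℂ)) / qu ζ +
      Nu (E0 : ℂ) * (qu (E0 : ℂ) - qu ζ) / (qu ζ * qu (E0 : ℂ)) := by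
    unfold mJ
    have a1 : qu ζ ≠ 0 := norm_pos_iff.1 hq0
    have a2 : qu (E0 : ℂ) ≠ 0 := norm_pos_iff.1 hq1
    field_simp
    ring
  rw [e2, ← hw]
  refine (norm_add_le _ _).trans ?_
  rw [norm_div, norm_div, norm_mul, norm_mul]
  have t1 : ‖Nu ζ - Nu (E0 : ℂ)‖ / ‖qu ζ‖ ≤
      (1536 * C54 + 8) * w ^ (1 / 4 : ℝ) / (ka ^ 3 / 8) :=
    div_le_div₀ (by positivity) hN (by positivity) g1
  have t2 : ‖Nu (E0 : ℂ)‖ * ‖qu (E0 : ℂ) - qu ζ‖ / (‖qu ζ‖ * ‖qu (E0 : ℂ)‖) ≤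
      (1024 * C32 + 28) * (64 * w ^ (1 / 4 : ℝ)) / (ka ^ 3 / 8 * (ka ^ 3 / 8)) :=
    div_le_div₀ (by positivity) (mul_le_mul hs.Nu_bd hq (norm_nonneg _) (by positivity))
      (by positivity) (mul_le_mul g1 g2 (by positivity) hq0.le)
  have e3 : (1536 * C54 + 8) * w ^ (1 / 4 : ℝ) / (ka ^ 3 / 8) +
      (1024 * C32 + 28) * (64 * w ^ (1 / 4 : ℝ)) / (ka ^ 3 / 8 * (ka ^ 3 / 8)) =
      ((1536 * C54 + 8) * 8 / ka ^ 3 + (1024 * C32 + 28) * 4096 / ka ^ 6) * w ^ (1 / 4 : ℝ) := by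
    field_simp
    ring
  calc _ ≤ _ := add_le_add t1 t2
    _ = _ := e3
    _ ≤ CH ka * w ^ (1 / 4 : ℝ) := by
        refine mul_le_mul_of_nonneg_right ?_ (by positivity)
        unfold CH
        have : 0 ≤ 3 * 72 * C54 := by positivity
        linarith

/-- the Laplace transform of `J₀²` -/
theorem lap {ζ : ℂ} (hζ : 0 < ζ.im) :
    ∫ s in Ioi (0 : ℝ), k1 ζ s * HJ 2 s = Nu ζ / qu ζ := by
  have hre : (cz ζ).re = ζ.im := by
    unfold cz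
    simp
  have h1 := laplace (cz ζ) (by rw [hre]; exact hζ)
  have h2 : qu ζ ≠ 0 := by
    have e1 : ∀ w : ℂ, w.re = 0 → cz ζ - w ≠ 0 := by
      intro w hw h
      have h3 : (cz ζ - w).re = 0 := by rw [h]; simp
      rw [Complex.sub_re, hw, hre] at h3
      linarith
    rw [qu_eq]
    refine mul_ne_zero ?_ (mul_ne_zero (e1 _ (by simp)) ?_)
    · have := e1 0 (by simp)
      rwa [sub_zero] at this
    · have := e1 (-(4 * Complex.I)) (by simp)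
      rwa [sub_neg_eq_add] at this
  rw [eq_div_iff h2, mul_comm]
  unfold Nu Hc
  simp only [HJ_eq]
  exact h1

theorem mJ_bd {ka E0 : ℝ} (hka : 0 < ka) (hka1 : ka ≤ 1) (hE : Bulk ka E0) :
    ‖mJ E0‖ ≤ (1024 * C32 + 28) * 8 / ka ^ 3 :=
  (Near.self hka hka1 hE).frac_bd

/-- the difference to the torus -/
theorem free00 (L : ℕ) [NeZero L] {ζ : ℂ} (hζ : 0 < ζ.im) (hζ1 : ζ.im ≤ 1) :
    ‖(starRingEnd ℂ) (GG ζ (0 : T 2 L) 0) - -Complex.I * ∫ s in Ioi (0 : ℝ), k1 ζ s * HJ 2 s‖ ≤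
      er 2 L ζ.im := by
  rw [avg_time1 hζ, ← mul_sub, norm_mul, norm_neg, Complex.norm_I, one_mul]
  exact cmp1 (r := ζ.im / 2) (by positivity) (by linarith) (k1_cont ζ)
    ((JL_cont L).pow 2) (HJ_cont 2) (fun s hs => k1_le hζ.le hs) (fun s hs => J_comp L s hs)
    (fun s hs => pow_bd L s hs) (Bg := 9) (fun s hs => (HJ_bd s hs).trans (by
      rw [div_le_iff₀ (by linarith)]
      nlinarith))

/-- the diagonal of the free resolvent -/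
theorem free1 {ka E0 : ℝ} (L : ℕ) [NeZero L] {ζ : ℂ} (hζ : 0 < ζ.im) (h : Near ka E0 ζ) :
    ‖(starRingEnd ℂ) (GG ζ (0 : T 2 L) 0) - -Complex.I * mJ E0‖ ≤
      er 2 L ζ.im + CH ka * ‖ζ - E0‖ ^ (1 / 4 : ℝ) := by
  have hζ1 : ζ.im ≤ 1 := by
    have h1 := Complex.abs_im_le_norm (ζ - E0)
    simp only [Complex.sub_im, Complex.ofReal_im, sub_zero] at h1
    have h2 := h.hd
    have h3 := h.hka1
    have h4 := le_abs_self ζ.im
    linarith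
  have h1 := free00 L hζ hζ1
  have h2 := h.diff
  rw [lap hζ] at h1
  have e1 : (starRingEnd ℂ) (GG ζ (0 : T 2 L) 0) - -Complex.I * mJ E0 =
      ((starRingEnd ℂ) (GG ζ (0 : T 2 L) 0) - -Complex.I * (Nu ζ / qu ζ)) +
      -Complex.I * (Nu ζ / qu ζ - mJ E0) := by ring
  rw [e1]
  refine (norm_add_le _ _).trans (add_le_add h1 ?_)
  rw [norm_mul, norm_neg, Complex.norm_I, one_mul]
  exact h2

theorem free1_im {ka E0 : ℝ} (L : ℕ) [NeZero L] {ζ : ℂ} (hζ : 0 < ζ.im) (h : Near ka E0 ζ) :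
    |(GG ζ (0 : T 2 L) 0).im - (mJ E0).re| ≤
      er 2 L ζ.im + CH ka * ‖ζ - E0‖ ^ (1 / 4 : ℝ) := by
  refine le_trans ?_ (free1 L hζ h)
  refine le_trans (le_of_eq ?_) (Complex.abs_im_le_norm _)
  rw [← abs_neg]
  congr 1
  simp
  ring

/-- the bound of the diagonal near bulk energies -/
theorem free0 {ka E0 : ℝ} (L : ℕ) [NeZero L] {ζ : ℂ} (hζ : 0 < ζ.im) (hζ1 : ζ.im ≤ 1)
    (h : Near ka E0 ζ) :
    ‖GG ζ (0 : T 2 L) 0‖ ≤ er 2 L ζ.im + (1024 * C32 + 28) * 8 / ka ^ 3 := by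
  have h1 := free00 L hζ hζ1
  rw [lap hζ] at h1
  have h2 := h.frac_bd
  have h3 : ‖(starRingEnd ℂ) (GG ζ (0 : T 2 L) 0)‖ ≤
      ‖(starRingEnd ℂ) (GG ζ (0 : T 2 L) 0) - -Complex.I * (Nu ζ / qu ζ)‖ +
      ‖-Complex.I * (Nu ζ / qu ζ)‖ := by
    have := norm_add_le ((starRingEnd ℂ) (GG ζ (0 : T 2 L) 0) - -Complex.I * (Nu ζ / qu ζ))
      (-Complex.I * (Nu ζ / qu ζ))
    rwa [sub_add_cancel] at this
  rw [RCLike.norm_conj, norm_mul, norm_neg, Complex.norm_I, one_mul] at h3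
  linarith

/-- the constant of the a priori bound -/
noncomputable def Ca (α : ℝ) : ℝ := ∫ s in Ioi (0 : ℝ), (s + 1) ^ (-(1 + α) : ℝ)

theorem Ca_nonneg (α : ℝ) : 0 ≤ Ca α := by
  unfold Ca
  refine setIntegral_nonneg measurableSet_Ioi fun s hs => ?_
  have : (0 : ℝ) < s := hs
  positivity

/-- a bound for all energies -/
theorem freeA (α : ℝ) (hα : 0 < α) (hα1 : α ≤ 1) (L : ℕ) [NeZero L] {ζ : ℂ} (hζ : 0 < ζ.im)
    (hζ1 : ζ.im ≤ 1) :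
    ‖GG ζ (0 : T 2 L) 0‖ ≤ er 2 L ζ.im + 18 * Ca α * (ζ.im / 2) ^ (-α) := by
  have h1 := free00 L hζ hζ1
  have iα : IntegrableOn (fun s : ℝ => (s + 1) ^ (-(1 + α) : ℝ)) (Ioi 0) :=
    integrableOn_add_rpow_Ioi_of_lt (by linarith) (by norm_num)
  have h2 : ‖∫ s in Ioi (0 : ℝ), k1 ζ s * HJ 2 s‖ ≤ 18 * Ca α * (ζ.im / 2) ^ (-α) := by
    refine (norm_integral_le_of_norm_le (iα.const_mul (18 * (ζ.im / 2) ^ (-α))) ?_).trans
      (le_of_eq ?_)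
    · refine (ae_restrict_iff' measurableSet_Ioi).2 (Filter.Eventually.of_forall fun s hs => ?_)
      have hs' : (0 : ℝ) ≤ s := le_of_lt hs
      have hs1 : (0 : ℝ) < s + 1 := by linarith
      obtain ⟨r, hr⟩ : ∃ r, r = ζ.im / 2 := ⟨_, rfl⟩
      have hr0 : 0 < r := by rw [hr]; positivity
      have hr1 : r ≤ 1 := by rw [hr]; linarith
      have k1b := k1_le hζ.le hs'
      rw [← hr] at k1b ⊢
      rw [norm_mul]
      have e1 : Real.exp (-r * s) ≤ r ^ (-α) * (s + 1) ^ (-α) := by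
        have a1 : r * (s + 1) ≤ Real.exp (r * s) := by
          have := Real.add_one_le_exp (r * s)
          nlinarith
        have a2 : (r * (s + 1)) ^ α ≤ Real.exp (r * s) := by
          calc (r * (s + 1)) ^ α ≤ (Real.exp (r * s)) ^ α :=
                Real.rpow_le_rpow (by positivity) a1 hα.le
            _ ≤ (Real.exp (r * s)) ^ (1 : ℝ) :=
                Real.rpow_le_rpow_of_exponent_le (Real.one_le_exp (by positivity)) hα1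
            _ = _ := Real.rpow_one _
        rw [← Real.mul_rpow hr0.le hs1.le, Real.rpow_neg (by positivity), neg_mul,
          Real.exp_neg]
        exact inv_anti₀ (by positivity) a2
      have e2 : (s + 1) ^ (-(1 + α)) = (s + 1)⁻¹ * (s + 1) ^ (-α) := by
        rw [neg_add, Real.rpow_add hs1, Real.rpow_neg_one]
      calc ‖k1 ζ s‖ * ‖HJ 2 s‖ ≤ 2 * Real.exp (-r * s) * (9 / (1 + s)) :=
            mul_le_mul k1b (HJ_bd s hs') (norm_nonneg _) (by positivity)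
        _ ≤ 2 * (r ^ (-α) * (s + 1) ^ (-α)) * (9 / (1 + s)) := by gcongr
        _ = 18 * r ^ (-α) * ((s + 1)⁻¹ * (s + 1) ^ (-α)) := by
            rw [add_comm 1 s]
            ring
        _ = _ := by rw [e2]
    · rw [integral_const_mul]
      unfold Ca
      ring
  have h3 : ‖(starRingEnd ℂ) (GG ζ (0 : T 2 L) 0)‖ ≤
      ‖(starRingEnd ℂ) (GG ζ (0 : T 2 L) 0) - -Complex.I * ∫ s in Ioi (0 : ℝ), k1 ζ s * HJ 2 s‖ +
      ‖-Complex.I * ∫ s in Ioi (0 : ℝ), k1 ζ s * HJ 2 s‖ := by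
    have := norm_add_le ((starRingEnd ℂ) (GG ζ (0 : T 2 L) 0) -
      -Complex.I * ∫ s in Ioi (0 : ℝ), k1 ζ s * HJ 2 s)
      (-Complex.I * ∫ s in Ioi (0 : ℝ), k1 ζ s * HJ 2 s)
    rwa [sub_add_cancel] at this
  rw [RCLike.norm_conj, norm_mul, norm_neg, Complex.norm_I, one_mul] at h3
  linarith

/-- the velocity average -/
theorem free2 (L : ℕ) [NeZero L] {ζ : ℂ} (hζ : 0 < ζ.im) (hζ1 : ζ.im ≤ 1) (E0 : ℝ)
    (i : Fin 2) :
    |(NN 2 L)⁻¹ * ∑ k : T 2 L, (2 * (ZMod.stdAddChar (k i) : ℂ).im) ^ 2 *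
      (ζ.im ^ 3 * ‖gs ζ k‖ ^ 4) - 1 / 2 * (mS 2 E0).re| ≤
      er 2 L ζ.im + 3 * 72 * C54 * ‖ζ - E0‖ ^ (1 / 4 : ℝ) := by
  rw [avg_time2 hζ (fun k : T 2 L => (2 * (ZMod.stdAddChar (k i) : ℂ).im) ^ 2)]
  simp only [avg_sq]
  have h1 := cmp1 (r := ζ.im / 2) (by positivity) (by linarith) (k2_cont ζ)
    (((JL_cont L).pow (2 - 1)).mul (SL_cont L)) (HS_cont 2) (fun s hs => k2_le hζ.le hs)
    (fun s hs => S_comp L s hs) (fun s hs => pS_bd L s hs) (H_lin HS_bd)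
  have h2 := cmp2 (k2_cont ζ) (k1_cont E0) (HS_cont 2) (fun s hs => k2_le2 hζ.le hs)
    (fun s hs => k1_le2 (ζ := (E0 : ℂ)) (by simp) hs) (norm_nonneg (ζ - E0)) HS_bd
    (fun s hs => k2_diff hζ.le E0 hs)
  have e1 : (∫ s in Ioi (0 : ℝ), k2 ζ s * (JL L s ^ (2 - 1) * SL L s)) - mS 2 E0 =
      ((∫ s in Ioi (0 : ℝ), k2 ζ s * (JL L s ^ (2 - 1) * SL L s)) -
        ∫ s in Ioi (0 : ℝ), k2 ζ s * HS 2 s) +
      ((∫ s in Ioi (0 : ℝ), k2 ζ s * HS 2 s) - ∫ s in Ioi (0 : ℝ), k1 E0 s * HS 2 s) := by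
    unfold mS
    ring
  have h3 : ‖(∫ s in Ioi (0 : ℝ), k2 ζ s * (JL L s ^ (2 - 1) * SL L s)) - mS 2 E0‖ ≤
      er 2 L ζ.im + 3 * 72 * C54 * ‖ζ - E0‖ ^ (1 / 4 : ℝ) := by
    rw [e1]
    exact (norm_add_le _ _).trans (add_le_add h1 h2)
  rw [← mul_sub, abs_mul, abs_of_pos (by norm_num : (0 : ℝ) < 1 / 2), ← Complex.sub_re]
  have h4 := Complex.abs_re_le_norm
    ((∫ s in Ioi (0 : ℝ), k2 ζ s * (JL L s ^ (2 - 1) * SL L s)) - mS 2 E0)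
  have h5 := abs_nonneg ((∫ s in Ioi (0 : ℝ), k2 ζ s * (JL L s ^ (2 - 1) * SL L s)) - mS 2 E0).re
  linarith

theorem mS_bd (E0 : ℝ) : ‖mS 2 E0‖ ≤ 2 * (72 * C32) :=
  gbd (fun s hs => k1_le2 (ζ := (E0 : ℂ)) (by simp) hs) HS_bd

end Pool.Agent.Run7.h442.T2
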