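import Pool.Agent.Run7.h442.T2.Apr
import Pool.Agent.Run7.h47.Lim2

/-! The ladder kernel at small momenta in dimension two. -/

set_option autoImplicit false
set_option linter.unusedSectionVars false

open scoped BigOperators Matrix
open MeasureTheory Set

namespace Pool.Agent.Run7.h442.T2

open Pool.Agent.Run7.h47
open Pool.Agent.W788.MFP.Four Pool.Agent.W788.MFP.Dos

/-- the ladder kernel at small momenta -/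
theorem lad {L : ℕ} [NeZero L] {ζ : ℂ} (hζ : 0 < ζ.im) (hζ1 : ζ.im ≤ 1) (j : Fin 2 → ℤ)
    (hj : 4 * sz L j ≤ ζ.im) (E0 : ℝ) :
    |(GG ζ (0 : T 2 L) 0).im / ζ.im - (Kp ζ (mom 2 L j)).re -
      1 / 4 * (∑ i, ang L j i ^ 2) / ζ.im ^ 3 * (mS 2 E0).re| ≤
      120 * sz L j ^ 3 / ζ.im ^ 4 * (GG ζ (0 : T 2 L) 0).im +
        1 / 2 * (∑ i, ang L j i ^ 2) / ζ.im ^ 3 *
          (er 2 L ζ.im + 3 * 72 * C54 * ‖ζ - E0‖ ^ (1 / 4 : ℝ)) := by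
  have hN := NN_pos (d := 2) (L := L)
  set err := er 2 L ζ.im + 3 * 72 * C54 * ‖ζ - E0‖ ^ (1 / 4 : ℝ) with herr
  rw [Kp_re hζ]
  have h1 : |∑ k : T 2 L, ‖gs ζ k - gs ζ (k + mom 2 L j)‖ ^ 2 -
      ∑ k : T 2 L, D0 j k ^ 2 * ‖gs ζ k‖ ^ 4| ≤
      240 * sz L j ^ 3 / ζ.im * ∑ k : T 2 L, ‖gs ζ k‖ ^ 4 := by
    rw [← Finset.sum_sub_distrib, Finset.mul_sum]
    refine (Finset.abs_sum_le_sum_abs _ _).trans (Finset.sum_le_sum fun k _ => ?_)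
    exact gs_shift hζ hζ1 j hj k
  have h2 : |(NN 2 L)⁻¹ * ∑ k : T 2 L, D0 j k ^ 2 * ‖gs ζ k‖ ^ 4 -
      1 / 2 * (∑ i, ang L j i ^ 2) / ζ.im ^ 3 * (mS 2 E0).re| ≤
      (∑ i, ang L j i ^ 2) / ζ.im ^ 3 * err := by
    rw [D0_sum hζ, Finset.mul_sum]
    have e1 : ∑ i, (NN 2 L)⁻¹ * (ang L j i ^ 2 * ∑ k : T 2 L,
        (2 * (ZMod.stdAddChar (k i) : ℂ).im) ^ 2 * ‖gs ζ k‖ ^ 4) -
        1 / 2 * (∑ i, ang L j i ^ 2) / ζ.im ^ 3 * (mS 2 E0).re =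
        ∑ i, ang L j i ^ 2 / ζ.im ^ 3 * ((NN 2 L)⁻¹ * ∑ k : T 2 L,
          (2 * (ZMod.stdAddChar (k i) : ℂ).im) ^ 2 * (ζ.im ^ 3 * ‖gs ζ k‖ ^ 4) -
            1 / 2 * (mS 2 E0).re) := by
      have e2 : 1 / 2 * (∑ i, ang L j i ^ 2) / ζ.im ^ 3 * (mS 2 E0).re =
          ∑ i, ang L j i ^ 2 / ζ.im ^ 3 * (1 / 2 * (mS 2 E0).re) := by
        rw [← Finset.sum_mul, ← Finset.sum_div]
        ring
      rw [e2, ← Finset.sum_sub_distrib]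
      refine Finset.sum_congr rfl fun i _ => ?_
      have e3 : ∑ k : T 2 L, (2 * (ZMod.stdAddChar (k i) : ℂ).im) ^ 2 *
          (ζ.im ^ 3 * ‖gs ζ k‖ ^ 4) = ζ.im ^ 3 * ∑ k : T 2 L,
          (2 * (ZMod.stdAddChar (k i) : ℂ).im) ^ 2 * ‖gs ζ k‖ ^ 4 := by
        rw [Finset.mul_sum]
        exact Finset.sum_congr rfl fun k _ => by ring
      rw [e3]
      field_simp
    rw [e1]
    refine (Finset.abs_sum_le_sum_abs _ _).trans ?_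
    rw [Finset.sum_div, Finset.sum_mul]
    refine Finset.sum_le_sum fun i _ => ?_
    rw [abs_mul, abs_of_nonneg (by positivity : 0 ≤ ang L j i ^ 2 / ζ.im ^ 3)]
    exact mul_le_mul_of_nonneg_left (free2 L hζ hζ1 E0 i) (by positivity)
  have h3 := sum_four (d := 2) (L := L) hζ
  have h4 : |(NN 2 L)⁻¹ * ∑ k : T 2 L, ‖gs ζ k - gs ζ (k + mom 2 L j)‖ ^ 2 -
      (NN 2 L)⁻¹ * ∑ k : T 2 L, D0 j k ^ 2 * ‖gs ζ k‖ ^ 4| ≤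
      240 * sz L j ^ 3 / ζ.im * ((GG ζ (0 : T 2 L) 0).im / ζ.im ^ 3) := by
    rw [← mul_sub, abs_mul, abs_of_nonneg (inv_nonneg.2 hN.le)]
    calc (NN 2 L)⁻¹ * |∑ k : T 2 L, ‖gs ζ k - gs ζ (k + mom 2 L j)‖ ^ 2 -
        ∑ k : T 2 L, D0 j k ^ 2 * ‖gs ζ k‖ ^ 4| ≤
        (NN 2 L)⁻¹ * (240 * sz L j ^ 3 / ζ.im * ∑ k : T 2 L, ‖gs ζ k‖ ^ 4) := by gcongr
      _ = 240 * sz L j ^ 3 / ζ.im * ((NN 2 L)⁻¹ * ∑ k : T 2 L, ‖gs ζ k‖ ^ 4) := by ring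
      _ ≤ _ := by
          refine mul_le_mul_of_nonneg_left h3 ?_
          have := sz_nonneg (L := L) j
          positivity
  have h5 := abs_add_le ((NN 2 L)⁻¹ * ∑ k : T 2 L, ‖gs ζ k - gs ζ (k + mom 2 L j)‖ ^ 2 -
      (NN 2 L)⁻¹ * ∑ k : T 2 L, D0 j k ^ 2 * ‖gs ζ k‖ ^ 4)
      ((NN 2 L)⁻¹ * ∑ k : T 2 L, D0 j k ^ 2 * ‖gs ζ k‖ ^ 4 -
      1 / 2 * (∑ i, ang L j i ^ 2) / ζ.im ^ 3 * (mS 2 E0).re)
  have h6 : 1 / 2 * ((NN 2 L)⁻¹ * ∑ k : T 2 L, ‖gs ζ k - gs ζ (k + mom 2 L j)‖ ^ 2) -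
      1 / 4 * (∑ i, ang L j i ^ 2) / ζ.im ^ 3 * (mS 2 E0).re =
      1 / 2 * (((NN 2 L)⁻¹ * ∑ k : T 2 L, ‖gs ζ k - gs ζ (k + mom 2 L j)‖ ^ 2 -
      (NN 2 L)⁻¹ * ∑ k : T 2 L, D0 j k ^ 2 * ‖gs ζ k‖ ^ 4) +
      ((NN 2 L)⁻¹ * ∑ k : T 2 L, D0 j k ^ 2 * ‖gs ζ k‖ ^ 4 -
      1 / 2 * (∑ i, ang L j i ^ 2) / ζ.im ^ 3 * (mS 2 E0).re)) := by ring
  rw [h6, abs_mul, abs_of_pos (by norm_num : (0 : ℝ) < 1 / 2)]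
  have h7 : 120 * sz L j ^ 3 / ζ.im ^ 4 * (GG ζ (0 : T 2 L) 0).im =
      1 / 2 * (240 * sz L j ^ 3 / ζ.im * ((GG ζ (0 : T 2 L) 0).im / ζ.im ^ 3)) := by
    field_simp
    ring
  rw [h7]
  have h8 : 1 / 2 * (∑ i, ang L j i ^ 2) / ζ.im ^ 3 * err =
      1 / 2 * ((∑ i, ang L j i ^ 2) / ζ.im ^ 3 * err) := by ring
  rw [h8]
  linarith

end Pool.Agent.Run7.h442.T2
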