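import Pool.Agent.Run7.h442.T2.Fre
import Pool.Agent.Run7.h47.Par
import Pool.Agent.TH311.AN2.QB2
import Pool.Agent.W788.MF2.Dos2d

/-! Choice of the parameters in dimension two. -/

set_option autoImplicit false
set_option linter.unusedSectionVars false

open scoped BigOperators Matrix
open MeasureTheory

namespace Pool.Agent.Run7.h442.T2

open Pool.Agent.Run7.h47
open Pool.Agent.W788.MFP.Four Pool.Agent.W788.BK
open Pool.Agent.W788.MFP.Form Pool.Agent.W788.MFP.Dos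
open Pool.Agent.W788.MFP.Gm (Γ)

/-- the variance bounds for all small couplings in dimension two -/
theorem par (ka : ℝ) (hka : 0 < ka) (hka1 : ka ≤ 1) (κ : ℝ) (hκ0 : 0 < κ) (hκ1 : κ < 2 / 15) :
    ∃ β : ℝ, 0 < β ∧ β ≤ 1 ∧ ∀ ε : ℝ, 0 < ε → ε ≤ 1 →
    ∃ s : ℝ, 0 < s ∧ s ≤ 1 / 5 ∧ ∀ (σ E t : ℝ) (L : ℕ) [NeZero L], Odd L → Bulk ka E →
      0 < |σ| → |σ| ≤ s →
      |σ| ^ (2 + κ) ≤ t → t ≤ σ ^ 2 → (|σ| ^ 12)⁻¹ ≤ (L : ℝ) → (L : ℝ) ≤ 2 * (|σ| ^ 12)⁻¹ →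
      V1 2 L σ E t ≤ ε * |σ| ^ β * (t / σ ^ 2) ^ 3 * (1 + (mm 2 L σ E t).im ^ 2) ∧
      ∀ p : T 2 L, t ^ 2 * V2 σ E t p ≤
        ε * |σ| ^ β * (t / σ ^ 2) ^ 3 * (1 + (mm 2 L σ E t).im ^ 2) := by
  set CQ : ℝ := 2600000 / ka ^ 3 with hCQd
  have hCQ : 0 < CQ := by positivity
  set e : ℝ := (2 - 15 * κ) / 9 with he
  have he0 : 0 < e := by rw [he]; linarith
  have he1 : e < 1 := by rw [he]; linarith
  have hκe : κ = 2 / 15 - 3 * e / 5 := by rw [he]; ring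
  set a : ℝ := e / 7 with ha
  have ha0 : 0 < a := by positivity
  have hea : 0 < e * a := by positivity
  set β : ℝ := e / 4 with hβ
  have hβ0 : 0 < β := by positivity
  set KQ : ℝ := 12 * CQ / a ^ 2 with hKQ
  have hKQ0 : 0 < KQ := by positivity
  set Kγ : ℝ := 6800 / a ^ 2 with hKγ
  have hKγ0 : 0 < Kγ := by positivity
  refine ⟨β, hβ0, by rw [hβ]; linarith, fun ε hε hε1 => ?_⟩
  set P : ℕ := ⌈(32 : ℝ) * 7 / (5 * e)⌉₊ with hP
  have hP1 : (32 : ℝ) * 7 / (5 * e) ≤ P := Nat.le_ceil _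
  have hP2 : (32 : ℝ) ≤ 5 * e / 7 * P := by
    rw [div_le_iff₀ (by positivity)] at hP1
    linarith
  have hP0 : P ≠ 0 := by
    intro h
    rw [h] at hP2
    norm_num at hP2
  set K3 : ℝ := 120 * ((8 * P * Kγ) ^ P * 2 ^ 2) with hK3
  obtain ⟨s1, hs1, H1⟩ := cmp_pow (2 * (120 * (48 * KQ + 2)))
    (8 + (2 - e) * (4 / 3) - 2 * a) (5 * (2 + κ) + β) ε (by
      rw [hκe, ha, hβ]
      linarith) hε
  obtain ⟨s2, hs2, H2⟩ := cmp_pow (3840 * KQ * Kγ ^ 2)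
    (2 - 6 * a - (2 - e) * (2 / 3)) (3 * κ + β) (ε / 2) (by
      rw [hκe, ha, hβ]
      linarith) (by positivity)
  obtain ⟨s3, hs3, H3⟩ := cmp_pow K3
    (2 - 4 * (2 + κ) + (5 * e / 7 * P - 24)) (3 * κ + β) (ε / 2) (by
      rw [hβ]
      linarith) (by positivity)
  refine ⟨min (min s1 s2) (min s3 (1 / 5)), by positivity,
    (min_le_right _ _).trans (min_le_right _ _), ?_⟩
  intro σ E t L _ hodd hE hσ hσs htl htu hL1 hL2
  set x : ℝ := |σ| with hx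
  have hxs1 : x ≤ s1 := hσs.trans ((min_le_left _ _).trans (min_le_left _ _))
  have hxs2 : x ≤ s2 := hσs.trans ((min_le_left _ _).trans (min_le_right _ _))
  have hxs3 : x ≤ s3 := hσs.trans ((min_le_right _ _).trans (min_le_left _ _))
  have hx5 : x ≤ 1 / 5 := hσs.trans ((min_le_right _ _).trans (min_le_right _ _))
  have hx1 : x ≤ 1 := by linarith
  have hσx : σ ^ 2 = x ^ 2 := (sq_abs σ).symm
  have ht : 0 < t := (Real.rpow_pos_of_pos hσ _).trans_le htl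
  have hxβ0 : 0 < x ^ β := Real.rpow_pos_of_pos hσ _
  have hxβ1 : x ^ β ≤ 1 := Real.rpow_le_one hσ.le hx1 hβ0.le
  -- the parameters
  set δ : ℝ := x ^ (2 - e) with hδ
  have hδ0 : 0 < δ := Real.rpow_pos_of_pos hσ _
  have hδx : x ^ 2 ≤ δ := by
    rw [← Real.rpow_natCast, hδ]
    exact pow_cmp hσ hx1 (by push_cast; linarith)
  have hδx1 : δ ≤ x := by
    calc δ ≤ x ^ (1 : ℝ) := pow_cmp hσ hx1 (by linarith)
      _ = x := Real.rpow_one x
  have hδ1 : δ ≤ 1 := hδx1.trans hx1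
  have hδ2 : δ ≤ 1 / 2 := hδx1.trans (by linarith)
  set θ : ℝ := 1 / 2 * δ ^ (2 / 3 : ℝ) with hθ
  have hθ0 : 0 < θ := by positivity
  have hδb : δ ^ (2 / 3 : ℝ) ≤ 1 := Real.rpow_le_one hδ0.le hδ1 (by norm_num)
  have hθ1 : θ ≤ 1 := by
    rw [hθ]
    linarith
  have hθx : 1 / 2 * x ^ 2 ≤ θ := by
    rw [hθ]
    refine mul_le_mul_of_nonneg_left ?_ (by norm_num)
    rw [hδ, ← Real.rpow_mul hσ.le, ← Real.rpow_natCast]
    exact pow_cmp hσ hx1 (by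
      push_cast
      linarith)
  set τ : ℝ := 1 / (2 * x) with hτ
  have hτ0 : 0 < τ := by positivity
  have hxL : x ^ 12 * (L : ℝ) ≥ 1 := by
    have := mul_le_mul_of_nonneg_left hL1 (by positivity : 0 ≤ x ^ 12)
    rwa [mul_inv_cancel₀ (by positivity)] at this
  have hL0 : (0 : ℝ) < L := lt_of_lt_of_le (by positivity) hL1
  -- logarithms
  have hlog0 : 0 ≤ Real.log (1 / δ) := Real.log_nonneg (by
    rw [le_div_iff₀ hδ0]
    linarith)
  have hlog : Real.log (1 / δ) ≤ 2 / a * x ^ (-a) := by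
    refine (log_bd hδ0 (half_pos ha0)).trans ?_
    have h1 : δ ^ (-(a / 2)) ≤ x ^ (-a) := by
      rw [hδ, ← Real.rpow_mul hσ.le]
      exact pow_cmp hσ hx1 (by linarith)
    calc δ ^ (-(a / 2)) / (a / 2) ≤ x ^ (-a) / (a / 2) :=
          div_le_div_of_nonneg_right h1 (by positivity)
      _ = _ := by field_simp
  have hlog2 : Real.log (1 / δ) ^ 2 ≤ 4 / a ^ 2 * x ^ (-(2 * a)) := by
    calc Real.log (1 / δ) ^ 2 ≤ (2 / a * x ^ (-a)) ^ 2 := pow_le_pow_left₀ hlog0 hlog 2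
      _ = _ := by
          rw [mul_pow, ← Real.rpow_natCast (x ^ (-a)), ← Real.rpow_mul hσ.le]
          have : -a * ((2 : ℕ) : ℝ) = -(2 * a) := by push_cast; ring
          rw [this]
          ring
  have hgg : 1700 * Real.log (1 / δ) ^ 2 ≤ Kγ * x ^ (-(2 * a)) := by
    calc 1700 * Real.log (1 / δ) ^ 2 ≤ 1700 * (4 / a ^ 2 * x ^ (-(2 * a))) := by gcongr
      _ = _ := by rw [hKγ]; ring
  set Q : ℝ := KQ * x ^ (-(2 * a) - (2 - e) * (2 / 3)) with hQ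
  have hQ0 : 0 < Q := by positivity
  have hδ23 : (δ ^ (2 / 3 : ℝ))⁻¹ = x ^ (-((2 - e) * (2 / 3))) := by
    rw [hδ, ← Real.rpow_mul hσ.le, ← Real.rpow_neg hσ.le]
  have hsum : (Real.sqrt δ)⁻¹ + θ⁻¹ ≤ 3 * x ^ (-((2 - e) * (2 / 3))) := by
    have h1 : (Real.sqrt δ)⁻¹ ≤ (δ ^ (2 / 3 : ℝ))⁻¹ := by
      apply inv_anti₀ (by positivity)
      rw [Real.sqrt_eq_rpow]
      exact pow_cmp hδ0 hδ1 (by norm_num)
    have h2 : θ⁻¹ = 2 * (δ ^ (2 / 3 : ℝ))⁻¹ := by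
      rw [hθ, mul_inv]
      norm_num
    rw [h2, ← hδ23]
    linarith
  have hQb : CQ * Real.log (1 / δ) ^ 2 * ((Real.sqrt δ)⁻¹ + θ⁻¹) ≤ Q := by
    calc CQ * Real.log (1 / δ) ^ 2 * ((Real.sqrt δ)⁻¹ + θ⁻¹) ≤
        CQ * (4 / a ^ 2 * x ^ (-(2 * a))) * (3 * x ^ (-((2 - e) * (2 / 3)))) := by gcongr
      _ = 12 * CQ / a ^ 2 * (x ^ (-(2 * a)) * x ^ (-((2 - e) * (2 / 3)))) := by
          field_simp
          ring
      _ = KQ * (x ^ (-(2 * a)) * x ^ (-((2 - e) * (2 / 3)))) := by rw [hKQ]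
      _ = Q := by
          rw [← Real.rpow_add hσ, hQ]
          congr 2
  -- the good event
  have hLδ : 1 / (L : ℝ) ≤ δ := by
    rw [div_le_iff₀ hL0]
    calc (1 : ℝ) ≤ x ^ 12 * L := hxL
      _ ≤ δ * L := by
          refine mul_le_mul_of_nonneg_right ?_ hL0.le
          refine le_trans ?_ hδx
          exact pow_le_pow_of_le_one hσ.le hx1 (by norm_num)
  have hLδ2 : 1 / (L : ℝ) ≤ (δ / 2) ^ 2 := by
    rw [div_le_iff₀ hL0]
    calc (1 : ℝ) ≤ x ^ 12 * L := hxL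
      _ ≤ (δ / 2) ^ 2 * L := by
          refine mul_le_mul_of_nonneg_right ?_ hL0.le
          calc x ^ 12 = x ^ 8 * (x ^ 2) ^ 2 := by ring
            _ ≤ (1 / 5) ^ 8 * δ ^ 2 := by gcongr
            _ ≤ (δ / 2) ^ 2 := by
                rw [div_pow]
                nlinarith [sq_nonneg δ]
  have hGB : Pool.Agent.W788.MF2.FormG.GB 2 L δ (1700 * Real.log (1 / δ) ^ 2) :=
    Pool.Agent.W788.MF2.Dos2d.green2 δ hLδ hδ2
  obtain ⟨G, hG, hGP, hGf⟩ := Pool.Agent.W788.MF2.FormG.form1 (d := 2) (L := L)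
    Pool.Agent.W788.MFP.Gm.γ 1 Pool.Agent.W788.MF2.Dom.dom_gauss E δ
    (1700 * Real.log (1 / δ) ^ 2) hδ0 hGB τ hτ0 P hP0
  set pb : ℝ := (8 * P * Kγ) ^ P * 2 ^ 2 * x ^ (5 * e / 7 * P - 24) with hpb
  have hPb : (Γ (T 2 L)).real Gᶜ ≤ pb := by
    refine hGP.trans ?_
    have h1 : 2 * P * (1700 * Real.log (1 / δ) ^ 2) * δ⁻¹ * 1 ^ 2 / τ ^ 2 ≤
        8 * P * Kγ * x ^ (5 * e / 7) := by
      have h2 : (τ ^ 2)⁻¹ = 4 * x ^ 2 := by
        rw [hτ]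
        field_simp
        norm_num
      have h3 : δ⁻¹ * x ^ 2 = x ^ e := by
        rw [hδ, ← Real.rpow_neg hσ.le, ← Real.rpow_natCast, ← Real.rpow_add hσ]
        congr 1
        push_cast
        ring
      have h4 : x ^ (-(2 * a)) * x ^ e = x ^ (5 * e / 7) := by
        rw [← Real.rpow_add hσ]
        congr 1
        rw [ha]
        ring
      calc 2 * P * (1700 * Real.log (1 / δ) ^ 2) * δ⁻¹ * 1 ^ 2 / τ ^ 2 =
          8 * P * (1700 * Real.log (1 / δ) ^ 2) * (δ⁻¹ * x ^ 2) := by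
            rw [div_eq_mul_inv, h2]
            ring
        _ ≤ 8 * P * (Kγ * x ^ (-(2 * a))) * (δ⁻¹ * x ^ 2) := by gcongr
        _ = 8 * P * Kγ * (x ^ (-(2 * a)) * x ^ e) := by rw [h3]; ring
        _ = _ := by rw [h4]
    have h0 : 0 ≤ 2 * P * (1700 * Real.log (1 / δ) ^ 2) * δ⁻¹ * 1 ^ 2 / τ ^ 2 := by
      positivity
    have h5 : NN 2 L ≤ 2 ^ 2 * x ^ (-24 : ℝ) := by
      unfold NN
      calc (L : ℝ) ^ 2 ≤ (2 * (x ^ 12)⁻¹) ^ 2 := pow_le_pow_left₀ hL0.le hL2 2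
        _ = _ := by
            rw [mul_pow, inv_pow, ← pow_mul]
            congr 1
            rw [Real.rpow_neg hσ.le]
            congr 1
            rw [← Real.rpow_natCast]
            norm_num
    calc (2 * P * (1700 * Real.log (1 / δ) ^ 2) * δ⁻¹ * 1 ^ 2 / τ ^ 2) ^ P * NN 2 L ≤
        (8 * P * Kγ * x ^ (5 * e / 7)) ^ P * (2 ^ 2 * x ^ (-24 : ℝ)) :=
          mul_le_mul (pow_le_pow_left₀ h0 h1 P) h5 NN_pos.le (by positivity)
      _ = (8 * P * Kγ) ^ P * 2 ^ 2 * (x ^ (5 * e / 7 * P) * x ^ (-24 : ℝ)) := by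
          rw [mul_pow (8 * P * Kγ), ← Real.rpow_natCast (x ^ (5 * e / 7)), ← Real.rpow_mul hσ.le]
          ring
      _ = pb := by
          rw [← Real.rpow_add hσ, hpb, sub_eq_add_neg]
  have H : Hyp 2 L σ E t δ θ τ Q (Kγ * x ^ (-(2 * a))) pb G := by
    refine ⟨ht, ?_, hτ0.le, ?_, hQ0.le, by positivity, ?_, ?_, hG, hPb, hGf⟩
    · rw [hσx] at htu
      exact htu.trans hδx
    · rw [← hx, hτ]
      apply le_of_eq
      field_simp
    · intro p hp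
      have h1 := Pool.Agent.TH311.AN2.qb2 ka hka hka1 hodd θ δ E hθ0 hδ0 hδ2 hLδ2 hE.1 hE.2 p hp
      refine le_trans h1 ?_
      exact mul_le_mul_of_nonneg_right hQb NN_pos.le
    · exact (hGB E).trans hgg
  -- the density of low momenta
  have hlow : lw 2 L θ ≤ 2 * x ^ ((2 - e) * (4 / 3)) := by
    have h1 := s_low 2 L θ hθ0.le hθ1 ?_
    · unfold lw
      rw [inv_mul_le_iff₀ NN_pos]
      refine h1.trans (le_of_eq ?_)
      have h2 : (2 * θ) ^ 2 = x ^ ((2 - e) * (4 / 3)) := by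
        have h3 : 2 * θ = δ ^ (2 / 3 : ℝ) := by rw [hθ]; ring
        rw [h3, hδ, ← Real.rpow_natCast, ← Real.rpow_mul hσ.le, ← Real.rpow_mul hσ.le]
        congr 1
        push_cast
        ring
      rw [h2]
      ring
    · have h2 : x ^ 12 ≤ 1 / 2 * x ^ 2 := by
        have h3 : x ^ 12 = x ^ 10 * x ^ 2 := by ring
        rw [h3]
        refine mul_le_mul_of_nonneg_right ?_ (by positivity)
        calc x ^ 10 ≤ x ^ 1 := pow_le_pow_of_le_one hσ.le hx1 (by norm_num)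
          _ ≤ 1 / 2 := by rw [pow_one]; linarith
      calc (1 : ℝ) ≤ x ^ 12 * L := hxL
        _ ≤ θ * L := mul_le_mul_of_nonneg_right (h2.trans hθx) hL0.le
  have hlw0 := lw_nonneg (d := 2) (L := L) θ
  -- the ratio
  set r : ℝ := t / σ ^ 2 with hr
  have hσ2 : 0 < σ ^ 2 := by rw [hσx]; positivity
  have hr0 : 0 < r := by positivity
  have hr1 : r ≤ 1 := by
    rw [hr, div_le_one hσ2]
    exact htu
  have hrx : x ^ κ ≤ r := by
    rw [hr, le_div_iff₀ hσ2, hσx, ← Real.rpow_natCast, ← Real.rpow_add hσ]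
    refine le_trans (le_of_eq ?_) htl
    congr 1
    push_cast
    ring
  have hr3 : x ^ (3 * κ) ≤ r ^ 3 := by
    calc x ^ (3 * κ) = (x ^ κ) ^ 3 := by
          rw [← Real.rpow_natCast, ← Real.rpow_mul hσ.le]
          congr 1
          push_cast
          ring
      _ ≤ r ^ 3 := pow_le_pow_left₀ (by positivity) hrx 3
  have ht4 : x ^ (4 * (2 + κ)) ≤ t ^ 4 := by
    calc x ^ (4 * (2 + κ)) = (x ^ (2 + κ)) ^ 4 := by
          rw [← Real.rpow_natCast, ← Real.rpow_mul hσ.le]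
          congr 1
          push_cast
          ring
      _ ≤ t ^ 4 := pow_le_pow_left₀ (by positivity) htl 4
  have ht5 : x ^ (5 * (2 + κ)) ≤ t ^ 5 := by
    calc x ^ (5 * (2 + κ)) = (x ^ (2 + κ)) ^ 5 := by
          rw [← Real.rpow_natCast, ← Real.rpow_mul hσ.le]
          congr 1
          push_cast
          ring
      _ ≤ t ^ 5 := pow_le_pow_left₀ (by positivity) htl 5
  -- the first coefficient
  have hα2 : 2 * (120 * σ ^ 2 * (48 * Q * δ ^ 2 + lw 2 L θ) * (t ^ 2)⁻¹) ≤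
      ε * x ^ β * r ^ 3 := by
    have h1 : Q * δ ^ 2 = KQ * x ^ ((2 - e) * (4 / 3) - 2 * a) := by
      rw [hQ, hδ, ← Real.rpow_natCast (x ^ (2 - e)), ← Real.rpow_mul hσ.le, mul_assoc,
        ← Real.rpow_add hσ]
      congr 2
      push_cast
      ring
    have h2 : x ^ ((2 - e) * (4 / 3)) ≤ x ^ ((2 - e) * (4 / 3) - 2 * a) :=
      pow_cmp hσ hx1 (by linarith)
    have h3 : 48 * Q * δ ^ 2 + lw 2 L θ ≤ (48 * KQ + 2) * x ^ ((2 - e) * (4 / 3) - 2 * a) := by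
      calc 48 * Q * δ ^ 2 + lw 2 L θ = 48 * (Q * δ ^ 2) + lw 2 L θ := by ring
        _ ≤ 48 * (KQ * x ^ ((2 - e) * (4 / 3) - 2 * a)) +
            2 * x ^ ((2 - e) * (4 / 3) - 2 * a) := by
            rw [h1]
            linarith
        _ = _ := by ring
    have h4 := H1 x hσ hxs1
    have h5 : x ^ (8 + (2 - e) * (4 / 3) - 2 * a) =
        x ^ 8 * x ^ ((2 - e) * (4 / 3) - 2 * a) := by
      rw [← Real.rpow_natCast, ← Real.rpow_add hσ]
      congr 1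
      push_cast
      ring
    have h6 : ε * x ^ β * r ^ 3 = ε * x ^ β * t ^ 5 / (x ^ 6 * t ^ 2) := by
      rw [hr, hσx]
      field_simp
    have h7 : x ^ (5 * (2 + κ) + β) = x ^ (5 * (2 + κ)) * x ^ β := Real.rpow_add hσ _ _
    rw [h6, le_div_iff₀ (by positivity)]
    calc 2 * (120 * σ ^ 2 * (48 * Q * δ ^ 2 + lw 2 L θ) * (t ^ 2)⁻¹) * (x ^ 6 * t ^ 2) =
        2 * (120 * x ^ 8 * (48 * Q * δ ^ 2 + lw 2 L θ)) := by
          rw [hσx]
          field_simp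
      _ ≤ 2 * (120 * x ^ 8 * ((48 * KQ + 2) * x ^ ((2 - e) * (4 / 3) - 2 * a))) := by gcongr
      _ = 2 * (120 * (48 * KQ + 2)) * x ^ (8 + (2 - e) * (4 / 3) - 2 * a) := by
          rw [h5]
          ring
      _ ≤ ε * x ^ (5 * (2 + κ) + β) := h4
      _ = ε * x ^ β * x ^ (5 * (2 + κ)) := by
          rw [h7]
          ring
      _ ≤ ε * x ^ β * t ^ 5 := by gcongr
  -- the second coefficient
  have hβ2 : 2 * (60 * σ ^ 2 * (32 * Q * (Kγ * x ^ (-(2 * a))) ^ 2 + (t ^ 4)⁻¹ * pb)) ≤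
      ε * x ^ β * r ^ 3 := by
    have h1 : x ^ 2 * (Q * (Kγ * x ^ (-(2 * a))) ^ 2) =
        KQ * Kγ ^ 2 * x ^ (2 - 6 * a - (2 - e) * (2 / 3)) := by
      rw [hQ, mul_pow, ← Real.rpow_natCast (x ^ (-(2 * a))), ← Real.rpow_mul hσ.le,
        ← Real.rpow_natCast x]
      have h2 : x ^ (2 - 6 * a - (2 - e) * (2 / 3)) = x ^ ((2 : ℕ) : ℝ) *
          (x ^ (-(2 * a) - (2 - e) * (2 / 3)) * x ^ (-(2 * a) * ((2 : ℕ) : ℝ))) := by
        rw [← Real.rpow_add hσ, ← Real.rpow_add hσ]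
        congr 1
        push_cast
        ring
      rw [h2]
      ring
    have h2 := H2 x hσ hxs2
    have h3 := H3 x hσ hxs3
    have h4 : 120 * (x ^ 2 * ((t ^ 4)⁻¹ * pb)) ≤
        K3 * x ^ (2 - 4 * (2 + κ) + (5 * e / 7 * P - 24)) := by
      have h5 : (t ^ 4)⁻¹ ≤ x ^ (-(4 * (2 + κ))) := by
        rw [Real.rpow_neg hσ.le]
        exact inv_anti₀ (by positivity) ht4
      have h6 : x ^ (2 - 4 * (2 + κ) + (5 * e / 7 * P - 24)) = x ^ ((2 : ℕ) : ℝ) *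
          (x ^ (-(4 * (2 + κ))) * x ^ (5 * e / 7 * P - 24)) := by
        rw [← Real.rpow_add hσ, ← Real.rpow_add hσ]
        congr 1
        push_cast
        ring
      have hpb0 : 0 ≤ pb := by positivity
      calc 120 * (x ^ 2 * ((t ^ 4)⁻¹ * pb)) ≤ 120 * (x ^ 2 * (x ^ (-(4 * (2 + κ))) * pb)) := by
            gcongr
        _ = _ := by
            rw [h6, hpb, hK3, Real.rpow_natCast]
            ring
    calc 2 * (60 * σ ^ 2 * (32 * Q * (Kγ * x ^ (-(2 * a))) ^ 2 + (t ^ 4)⁻¹ * pb)) =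
        3840 * (x ^ 2 * (Q * (Kγ * x ^ (-(2 * a))) ^ 2)) + 120 * (x ^ 2 * ((t ^ 4)⁻¹ * pb)) := by
          rw [hσx]
          ring
      _ ≤ ε / 2 * x ^ (3 * κ + β) + ε / 2 * x ^ (3 * κ + β) := by
          refine add_le_add ?_ (h4.trans h3)
          rw [h1]
          refine le_trans (le_of_eq ?_) h2
          ring
      _ = ε * x ^ β * x ^ (3 * κ) := by
          rw [Real.rpow_add hσ]
          ring
      _ ≤ ε * x ^ β * r ^ 3 := by gcongr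
  have hεr : ε * x ^ β * r ^ 3 ≤ 1 := by
    have h1 := pow_le_one₀ (n := 3) hr0.le hr1
    have h2 : ε * x ^ β ≤ 1 := by
      calc ε * x ^ β ≤ 1 * 1 := mul_le_mul hε1 hxβ1 hxβ0.le (by norm_num)
        _ = 1 := one_mul 1
    calc ε * x ^ β * r ^ 3 ≤ 1 * 1 := mul_le_mul h2 h1 (by positivity) (by norm_num)
      _ = 1 := one_mul 1
  have hα1 : 120 * σ ^ 2 * (48 * Q * δ ^ 2 + lw 2 L θ) * (t ^ 2)⁻¹ ≤ 1 / 2 := by
    linarith
  obtain ⟨Λ, hΛ0, hΛ1, hΛ2, hΛ3⟩ := variances H hα1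
  have hfin : Λ ≤ ε * x ^ β * r ^ 3 * (1 + (mm 2 L σ E t).im ^ 2) := by
    have h1 := mul_le_mul_of_nonneg_right hα2 (sq_nonneg (mm 2 L σ E t).im)
    calc Λ ≤ _ := hΛ3
      _ ≤ ε * x ^ β * r ^ 3 * (mm 2 L σ E t).im ^ 2 + ε * x ^ β * r ^ 3 := add_le_add h1 hβ2
      _ = _ := by ring
  refine ⟨hΛ1.trans hfin, fun p => ?_⟩
  calc t ^ 2 * V2 σ E t p ≤ t ^ 2 * ((t ^ 2)⁻¹ * Λ) := by
        refine mul_le_mul_of_nonneg_left (hΛ2 p) (by positivity)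
    _ = Λ := by field_simp
    _ ≤ _ := hfin

end Pool.Agent.Run7.h442.T2
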