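import Pool.Agent.Run7.h47.Eig5

/-! Windows of energies. -/

set_option autoImplicit false
set_option linter.unusedSectionVars false

open scoped BigOperators Matrix Topology
open MeasureTheory ProbabilityTheory

namespace Pool.Agent.Run7.h442.T2

open Pool.Agent.Run7.h47
open Pool.Agent.W788.MFP.Four Pool.Agent.W788.BK
open Pool.Agent.W788.MFP.Gm (Γ)

section

variable {d L : ℕ} [NeZero L]

/-- the total over the windows in `W` -/
noncomputable def Xw (W : Finset ℕ) (σ a t : ℝ) (n : ℕ) (J : ℤ) (V : T d L → ℝ) : ℝ :=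
  ∑ w ∈ W, ∑ i : Fin d, 4 * t ^ 2 *
    Sw n (mom d L (Pi.single i J)) fun x y => ‖R σ (Ew a t w) t V x y‖ ^ 2

/-- the deterministic bound -/
theorem Xw_ge {W : Finset ℕ} {σ a t : ℝ} (ht : 0 < t) (n : ℕ) (J : ℤ) (V : T d L → ℝ) {ι : Type} [Fintype ι]
    {u : ι → EuclideanSpace ℂ (T d L)} (hu : Orthonormal ℂ u) {lam : ι → ℝ}
    (h : ∀ j, IsEig σ (lam j) V (u j)) (hl : ∀ j, ∃ w ∈ W, |lam j - Ew a t w| ≤ t) :
    ∑ j, ∑ i : Fin d, Sw n (mom d L (Pi.single i J)) (fun x y => ‖u j x‖ ^ 2 * ‖u j y‖ ^ 2) ≤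
      Xw W σ a t n J V := by
  have h1 : ∀ (j : ι) (i : Fin d),
      Sw n (mom d L (Pi.single i J)) (fun x y => ‖u j x‖ ^ 2 * ‖u j y‖ ^ 2) ≤
      ∑ w ∈ W, 4 * t ^ 2 * (fw (Ew a t w) t (lam j) ^ 2 *
        Sw n (mom d L (Pi.single i J)) (fun x y => ‖u j x‖ ^ 2 * ‖u j y‖ ^ 2)) := by
    intro j i
    obtain ⟨w, hw, hlw⟩ := hl j
    have h2 := fw_ge ht hlw
    have hS0 : 0 ≤ Sw n (mom d L (Pi.single i J)) (fun x y => ‖u j x‖ ^ 2 * ‖u j y‖ ^ 2) :=
      Sw_nonneg _ _ fun x y => by positivity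
    have h3 : 1 ≤ 4 * t ^ 2 * fw (Ew a t w) t (lam j) ^ 2 := by
      have h4 : (1 / (2 * t)) ^ 2 ≤ fw (Ew a t w) t (lam j) ^ 2 :=
        pow_le_pow_left₀ (by positivity) h2 2
      have h5 : 4 * t ^ 2 * (1 / (2 * t)) ^ 2 = 1 := by
        field_simp
        norm_num
      rw [← h5]
      gcongr
    have h4 : Sw n (mom d L (Pi.single i J)) (fun x y => ‖u j x‖ ^ 2 * ‖u j y‖ ^ 2) ≤
        4 * t ^ 2 * (fw (Ew a t w) t (lam j) ^ 2 *
        Sw n (mom d L (Pi.single i J)) (fun x y => ‖u j x‖ ^ 2 * ‖u j y‖ ^ 2)) := by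
      rw [← mul_assoc]
      exact le_mul_of_one_le_left hS0 h3
    refine h4.trans ?_
    exact Finset.single_le_sum (f := fun w => 4 * t ^ 2 * (fw (Ew a t w) t (lam j) ^ 2 *
      Sw n (mom d L (Pi.single i J)) (fun x y => ‖u j x‖ ^ 2 * ‖u j y‖ ^ 2)))
      (fun w _ => by positivity) hw
  calc ∑ j, ∑ i : Fin d, Sw n (mom d L (Pi.single i J)) (fun x y => ‖u j x‖ ^ 2 * ‖u j y‖ ^ 2) ≤
      ∑ j, ∑ i : Fin d, ∑ w ∈ W,
        4 * t ^ 2 * (fw (Ew a t w) t (lam j) ^ 2 *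
        Sw n (mom d L (Pi.single i J)) (fun x y => ‖u j x‖ ^ 2 * ‖u j y‖ ^ 2)) :=
        Finset.sum_le_sum fun j _ => Finset.sum_le_sum fun i _ => h1 j i
    _ = ∑ w ∈ W, ∑ i : Fin d, 4 * t ^ 2 * ∑ j,
        (fw (Ew a t w) t (lam j) ^ 2 *
        Sw n (mom d L (Pi.single i J)) (fun x y => ‖u j x‖ ^ 2 * ‖u j y‖ ^ 2)) := by
        rw [Finset.sum_congr rfl fun j _ => Finset.sum_comm, Finset.sum_comm]
        refine Finset.sum_congr rfl fun w _ => ?_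
        rw [Finset.sum_comm]
        exact Finset.sum_congr rfl fun i _ => by rw [Finset.mul_sum]
    _ ≤ Xw W σ a t n J V := by
        unfold Xw
        refine Finset.sum_le_sum fun w _ => Finset.sum_le_sum fun i _ => ?_
        exact mul_le_mul_of_nonneg_left (eig_Sw ht V n _ hu h) (by positivity)

theorem Xw_meas (W : Finset ℕ) {σ a t : ℝ} (ht : 0 < t) (n : ℕ) (J : ℤ) :
    Measurable fun V : T d L → ℝ => Xw W σ a t n J V := by
  unfold Xw
  exact Finset.measurable_sum _ fun w _ => Finset.measurable_sum _ fun i _ =>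
    ((Sw_cont ht n _).measurable).const_mul _

theorem Sw_int {σ E t : ℝ} (ht : 0 < t) (n : ℕ) (q : T d L) :
    Integrable (fun V : T d L → ℝ => Sw n q fun x y => ‖R σ E t V x y‖ ^ 2) (Γ (T d L)) := by
  refine Integrable.of_bound (C := ∑ _x : T d L, ∑ _y : T d L, 1 * (t⁻¹) ^ 2)
    (Sw_cont ht n q).aestronglyMeasurable (Filter.Eventually.of_forall fun V => ?_)
  rw [Real.norm_of_nonneg (Sw_nonneg _ _ fun x y => by positivity)]
  unfold Sw
  refine Finset.sum_le_sum fun x _ => Finset.sum_le_sum fun y _ => ?_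
  refine mul_le_mul ?_ ?_ (by positivity) zero_le_one
  · exact pow_le_one₀ (norm_nonneg _) (ch_le _ _ _)
  · exact pow_le_pow_left₀ (norm_nonneg _) (R_bd ht V x y) 2

theorem Xw_nonneg (W : Finset ℕ) {σ a t : ℝ} (n : ℕ) (J : ℤ) (V : T d L → ℝ) : 0 ≤ Xw W σ a t n J V := by
  unfold Xw
  exact Finset.sum_nonneg fun w _ => Finset.sum_nonneg fun i _ =>
    mul_nonneg (by positivity) (Sw_nonneg _ _ fun x y => by positivity)

theorem Xw_int (W : Finset ℕ) {σ a t : ℝ} (ht : 0 < t) (n : ℕ) (J : ℤ) :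
    Integrable (fun V : T d L → ℝ => Xw W σ a t n J V) (Γ (T d L)) := by
  unfold Xw
  exact integrable_finsetSum _ fun w _ => integrable_finsetSum _ fun i _ =>
    (Sw_int ht n _).const_mul _

/-- the mean of the total -/
theorem Xw_mean {W : Finset ℕ} {σ a t K0 δ : ℝ} (ha : 0 ≤ a) (ht : 0 < t) (ht1 : t ≤ 1)
    (hW : W.card ≤ ⌊a / t⌋₊ + 1) {n : ℕ} (hn : 0 < n)
    (J : ℤ) (hK0 : 0 ≤ K0) (hδ : 0 ≤ δ)
    (h0 : ∀ w ∈ W, t * ‖ff σ (Ew a t w) t (0 : T d L)‖ ≤ K0)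
    (h1 : ∀ w ∈ W, ∀ i : Fin d, ∀ k < n, ∀ l < n, k ≠ l →
      t * ‖ff σ (Ew a t w) t (k • mom d L (Pi.single i J) - l • mom d L (Pi.single i J))‖ ≤ δ) :
    ∫ V, Xw W σ a t n J V ∂(Γ (T d L)) ≤ 4 * d * (a + 1) * (K0 / n + δ) * NN d L := by
  have hn0 : (0 : ℝ) < n := by exact_mod_cast hn
  have hN := NN_pos (d := d) (L := L)
  have h2 : ∫ V, Xw W σ a t n J V ∂(Γ (T d L)) =
      ∑ w ∈ W, ∑ i : Fin d, 4 * t ^ 2 *
        ∫ V, Sw n (mom d L (Pi.single i J)) (fun x y => ‖R σ (Ew a t w) t V x y‖ ^ 2)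
          ∂(Γ (T d L)) := by
    unfold Xw
    rw [integral_finsetSum _ fun w _ => integrable_finsetSum _ fun i _ =>
      (Sw_int ht n _).const_mul _]
    refine Finset.sum_congr rfl fun w _ => ?_
    rw [integral_finsetSum _ fun i _ => (Sw_int ht n _).const_mul _]
    exact Finset.sum_congr rfl fun i _ => integral_const_mul _ _
  rw [h2]
  have h3 : ∀ w ∈ W, ∑ i : Fin d, 4 * t ^ 2 *
        ∫ V, Sw n (mom d L (Pi.single i J)) (fun x y => ‖R σ (Ew a t w) t V x y‖ ^ 2)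
          ∂(Γ (T d L)) ≤ d * (4 * t * (NN d L * (K0 / n + δ))) := by
    intro w hw
    calc ∑ i : Fin d, 4 * t ^ 2 *
        ∫ V, Sw n (mom d L (Pi.single i J)) (fun x y => ‖R σ (Ew a t w) t V x y‖ ^ 2)
          ∂(Γ (T d L)) ≤ ∑ _i : Fin d, 4 * t * (NN d L * (K0 / n + δ)) := by
          refine Finset.sum_le_sum fun i _ => ?_
          have h4 := Sw_mean (σ := σ) (E := Ew a t w) ht hn (mom d L (Pi.single i J)) (h0 w hw)
            (h1 w hw i) hδ
          calc 4 * t ^ 2 * ∫ V, Sw n (mom d L (Pi.single i J))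
                (fun x y => ‖R σ (Ew a t w) t V x y‖ ^ 2) ∂(Γ (T d L)) =
              4 * t * (t * ∫ V, Sw n (mom d L (Pi.single i J))
                (fun x y => ‖R σ (Ew a t w) t V x y‖ ^ 2) ∂(Γ (T d L))) := by ring
            _ ≤ _ := by gcongr
      _ = _ := by
          rw [Finset.sum_const, Finset.card_univ, Fintype.card_fin, nsmul_eq_mul]
  refine (Finset.sum_le_sum h3).trans ?_
  rw [Finset.sum_const, nsmul_eq_mul]
  have h4 : (W.card : ℝ) * t ≤ a + 1 := by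
    have h6 : (W.card : ℝ) ≤ ((⌊a / t⌋₊ + 1 : ℕ) : ℝ) := by exact_mod_cast hW
    have h7 : (W.card : ℝ) * t ≤ ((⌊a / t⌋₊ + 1 : ℕ) : ℝ) * t := by gcongr
    refine h7.trans ?_
    push_cast
    have h5 := Nat.floor_le (by positivity : 0 ≤ a / t)
    rw [le_div_iff₀ ht] at h5
    linarith
  calc (W.card : ℝ) * (d * (4 * t * (NN d L * (K0 / n + δ)))) =
      ((W.card : ℝ) * t) * (4 * d * (NN d L * (K0 / n + δ))) := by ring
    _ ≤ (a + 1) * (4 * d * (NN d L * (K0 / n + δ))) := by gcongr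
    _ = _ := by ring

end

end Pool.Agent.Run7.h442.T2
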