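import Pool.Agent.Run7.h442.T2.Eig
import Pool.Agent.Run7.h442.T2.Win

/-! Eigenvectors on the torus in dimension two: energies inside the bands. -/

set_option autoImplicit false
set_option linter.unusedSectionVars false

open scoped BigOperators Matrix Topology
open MeasureTheory ProbabilityTheory

namespace Pool.Agent.Run7.h442.T2

open Pool.Agent.Run7.h47
open Pool.Agent.W788.MFP.Four Pool.Agent.W788.BK
open Pool.Agent.W788.MFP.Gm (Γ)

/-- choice of the exponent -/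
theorem kap_ex {b : ℝ} (hb : b < 31 / 15) : ∃ κ : ℝ, 0 < κ ∧ κ < 2 / 15 ∧ b < 2 + κ / 2 := by
  refine ⟨max (b - 2 + 1 / 15) (1 / 15), ?_, ?_, ?_⟩
  · exact lt_max_of_lt_right (by norm_num)
  · exact max_lt (by linarith) (by norm_num)
  · rcases le_total (b - 2 + 1 / 15) (1 / 15) with h | h
    · rw [max_eq_right h]
      linarith
    · rw [max_eq_left h]
      linarith

open Classical in
/-- most eigenvectors with energies inside the bands are spread out -/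
theorem spread_bulk (a1 a : ℝ) (ha1 : 0 < a1) (ha0 : 0 ≤ a) (ha : a < 4) (b : ℝ)
    (hb : b < 31 / 15) (ε : ℝ) (hε : 0 < ε) :
    ∃ s : ℝ, 0 < s ∧ ∀ σ : ℝ, 0 < |σ| → |σ| ≤ s → ∀ (L : ℕ) [NeZero L], (|σ| ^ 12)⁻¹ ≤ (L : ℝ) →
      ∃ S : Set (T 2 L → ℝ), MeasurableSet S ∧ 1 - ε ≤ (Γ (T 2 L)).real S ∧
        ∀ V ∈ S, ∀ (ι : Type) [Fintype ι] (u : ι → EuclideanSpace ℂ (T 2 L)) (lam : ι → ℝ),
          Orthonormal ℂ u → (∀ j, IsEig σ (lam j) V (u j)) → (∀ j, a1 ≤ |lam j|) → (∀ j, |lam j| ≤ a) →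
          (∀ j, ∃ (i : Fin 2) (c : ZMod L), ε ≤
            ∑ x ∈ Finset.univ.filter fun x => InSlab (|σ| ^ (-b)) i c x, ‖u j x‖ ^ 2) →
          (Fintype.card ι : ℝ) ≤ ε * (L : ℝ) ^ 2 := by
  obtain ⟨κ, hκ0, hκ1, hκb⟩ := kap_ex hb
  obtain ⟨ka, hkad⟩ : ∃ ka, ka = min (min a1 (4 - a)) 1 / 2 := ⟨_, rfl⟩
  have hka : 0 < ka := by
    rw [hkad]
    exact half_pos (lt_min (lt_min ha1 (by linarith)) one_pos)
  have hka1' : 2 * ka ≤ 1 := by
    rw [hkad]
    linarith [min_le_right (min a1 (4 - a)) 1]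
  have hka1 : ka ≤ 1 := by linarith
  have hkaa : 2 * ka ≤ a1 := by
    rw [hkad]
    linarith [(min_le_left (min a1 (4 - a)) 1).trans (min_le_left a1 (4 - a))]
  have hkab : 2 * ka ≤ 4 - a := by
    rw [hkad]
    linarith [(min_le_left (min a1 (4 - a)) 1).trans (min_le_right a1 (4 - a))]
  obtain ⟨C0, hCC⟩ : ∃ C0, C0 = CC ka := ⟨_, rfl⟩
  have hC0 : 1 ≤ C0 := hCC ▸ CC_ge hka
  have hC32 := C32_nonneg
  have hJC' : ∀ E : ℝ, Bulk ka E → (mJ E).re ≤ C0 := by
    intro E hE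
    have h6 := mJ_bd hka hka1 hE
    have h7 := (le_abs_self _).trans (Complex.abs_re_le_norm (mJ E))
    rw [hCC]
    unfold CC
    linarith
  obtain ⟨c0, hc0, hJ⟩ := mJ_unif hka hka1
  obtain ⟨s0, hs0, hS⟩ := mS_unif hka hka1
  obtain ⟨δ, hδ⟩ : ∃ δ, δ = ε ^ 4 / (64 * (2 : ℕ) * (a + 1)) := ⟨_, rfl⟩
  have hδ0 : 0 < δ := by rw [hδ]; positivity
  obtain ⟨n, hn⟩ := exists_nat_gt (3 * (C0 + 1) / δ)
  have hn0R : (0 : ℝ) < n := lt_trans (by positivity) hn
  have hn0 : 0 < n := by exact_mod_cast hn0R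
  have hnδ : (C0 + 1) / n ≤ δ / 3 := by
    rw [div_lt_iff₀ hδ0] at hn
    rw [div_le_iff₀ hn0R]
    linarith
  obtain ⟨M, hM⟩ : ∃ M, M = 12 * C0 ^ 3 / (s0 * δ) + 1 := ⟨_, rfl⟩
  have hM1 : 1 ≤ M := by
    rw [hM]
    have : 0 ≤ 12 * C0 ^ 3 / (s0 * δ) := by positivity
    linarith
  have hMδ : 4 * C0 ^ 3 / (s0 * M ^ 2) ≤ δ / 3 := by
    have h1 : 12 * C0 ^ 3 / (s0 * δ) ≤ M ^ 2 := by
      have h2 : M ≤ M ^ 2 := by
        rw [sq]
        exact le_mul_of_one_le_left (by linarith) hM1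
      refine le_trans ?_ h2
      rw [hM]
      linarith
    rw [div_le_iff₀ (by positivity)] at h1 ⊢
    linarith
  obtain ⟨e1, he1⟩ : ∃ e1, e1 = min 1 (δ / 3) := ⟨_, rfl⟩
  have he10 : 0 < e1 := by rw [he1]; positivity
  have he11 : e1 ≤ 1 := by rw [he1]; exact min_le_left _ _
  have he12 : e1 ≤ δ / 3 := by rw [he1]; exact min_le_right _ _
  obtain ⟨s1, hs1, hs1', H⟩ := tor_all ka hka hka1 κ hκ0 hκ1 c0 hc0 hJ
    (fun E hE => hs0.le.trans (hS E hE)) (n * (M + 1)) (by positivity) e1 he10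
  obtain ⟨s2, hs2, H2⟩ := small_pow 1 κ s1 hκ0 hs1
  obtain ⟨s3, hs3, H3⟩ := small_pow (2 * n * (M + 1)) (2 + κ / 2 - b) (1 / 2) (by linarith)
    (by norm_num)
  obtain ⟨s4, hs4, H4⟩ := small_pow 1 (2 + κ) ka (by linarith) hka
  refine ⟨min (min s1 s2) (min s3 s4), by positivity, ?_⟩
  intro σ hσ hσs L _ hL
  obtain ⟨x, hx⟩ : ∃ x, x = |σ| := ⟨_, rfl⟩
  have hσx : σ ^ 2 = x ^ 2 := by rw [hx, sq_abs]
  rw [← hx] at hσ hσs hL ⊢
  have hx1 : x ≤ s1 := hσs.trans ((min_le_left _ _).trans (min_le_left _ _))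
  have hx2 : x ≤ s2 := hσs.trans ((min_le_left _ _).trans (min_le_right _ _))
  have hx3 : x ≤ s3 := hσs.trans ((min_le_right _ _).trans (min_le_left _ _))
  have hx4 : x ≤ s4 := hσs.trans ((min_le_right _ _).trans (min_le_right _ _))
  have hx15 : x ≤ 1 / 5 := hx1.trans hs1'
  have hxle1 : x ≤ 1 := by linarith
  have hLR : (0 : ℝ) < L := by exact_mod_cast Nat.pos_of_ne_zero (NeZero.ne L)
  have hN := NN_pos (d := 2) (L := L)
  obtain ⟨t, ht⟩ : ∃ t, t = x ^ (2 + κ) := ⟨_, rfl⟩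
  have ht0 : 0 < t := by rw [ht]; exact Real.rpow_pos_of_pos hσ _
  have htx : t = x ^ κ * x ^ 2 := by
    rw [ht, Real.rpow_add hσ, mul_comm]
    norm_num
  have htu : t ≤ s1 * σ ^ 2 := by
    rw [htx, hσx]
    have := H2 x hσ hx2
    rw [one_mul] at this
    gcongr
  have hta : t ≤ ka := by
    have := H4 x hσ hx4
    rw [one_mul] at this
    rw [ht]
    exact this
  have ht1 : t ≤ 1 := by
    refine htu.trans ?_
    have h1 : σ ^ 2 ≤ 1 := by
      rw [hσx]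
      exact pow_le_one₀ hσ.le hxle1
    have h2 : s1 ≤ 1 := hs1'.trans (by norm_num)
    exact mul_le_one₀ h2 (sq_nonneg σ) h1
  have hsq : Real.sqrt t = x ^ (1 + κ / 2) := by
    rw [ht, Real.sqrt_eq_rpow, ← Real.rpow_mul hσ.le]
    congr 1
    ring
  have hst0 : 0 < x * Real.sqrt t := by
    have := Real.sqrt_pos.2 ht0
    positivity
  have hst : x * Real.sqrt t = x ^ (2 + κ / 2) := by
    rw [hsq]
    have h1 : x ^ (2 + κ / 2) = x ^ (1 : ℝ) * x ^ (1 + κ / 2) := by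
      rw [← Real.rpow_add hσ]
      congr 1
      ring
    rw [h1, Real.rpow_one]
  have hst3 : x ^ 3 ≤ x * Real.sqrt t := by
    rw [hst, ← Real.rpow_natCast]
    exact Real.rpow_le_rpow_of_exponent_ge hσ hxle1 (by push_cast; linarith)
  have hpi := Real.pi_pos
  have hpi4 := Real.pi_le_four
  have hLst : 2 * Real.pi / L ≤ x * Real.sqrt t := by
    refine le_trans ?_ hst3
    have h1 : (L : ℝ)⁻¹ ≤ x ^ 12 := by
      rw [inv_le_comm₀ hLR (by positivity)]
      exact hL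
    have h2 : 8 * x ^ 9 ≤ 1 := by
      calc 8 * x ^ 9 ≤ 8 * (1 / 5) ^ 9 := by gcongr
        _ ≤ 1 := by norm_num
    calc 2 * Real.pi / L = 2 * Real.pi * (L : ℝ)⁻¹ := by ring
      _ ≤ 2 * 4 * x ^ 12 := by gcongr
      _ = (8 * x ^ 9) * x ^ 3 := by ring
      _ ≤ 1 * x ^ 3 := by gcongr
      _ = x ^ 3 := one_mul _
  -- the momentum
  obtain ⟨J, hJd⟩ : ∃ J : ℤ, J = ⌈M * (x * Real.sqrt t) * L / (2 * Real.pi)⌉ := ⟨_, rfl⟩
  obtain ⟨θ, hθ⟩ : ∃ θ, θ = 2 * Real.pi * J / L := ⟨_, rfl⟩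
  have hθ1 : M * (x * Real.sqrt t) ≤ θ := by
    have h1 : M * (x * Real.sqrt t) * L / (2 * Real.pi) ≤ J := by
      rw [hJd]
      exact Int.le_ceil _
    rw [hθ, le_div_iff₀ hLR]
    rw [div_le_iff₀ (by positivity)] at h1
    linarith
  have hθ2 : θ ≤ (M + 1) * (x * Real.sqrt t) := by
    have h1 : (J : ℝ) < M * (x * Real.sqrt t) * L / (2 * Real.pi) + 1 := by
      rw [hJd]
      exact Int.ceil_lt_add_one _
    have h2 : θ ≤ M * (x * Real.sqrt t) + 2 * Real.pi / L := by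
      rw [hθ, div_le_iff₀ hLR]
      have h3 : (M * (x * Real.sqrt t) + 2 * Real.pi / L) * L =
          M * (x * Real.sqrt t) * L + 2 * Real.pi := by
        field_simp
      rw [h3]
      have h4 : 2 * Real.pi * (M * (x * Real.sqrt t) * L / (2 * Real.pi) + 1) =
          M * (x * Real.sqrt t) * L + 2 * Real.pi := by
        field_simp
      rw [← h4]
      exact mul_le_mul_of_nonneg_left h1.le (by positivity)
    linarith
  have hθ0 : 0 < θ := lt_of_lt_of_le (by positivity) hθ1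
  -- the windows
  obtain ⟨W, hWd⟩ : ∃ W : Finset ℕ, W = (Finset.range (⌊a / t⌋₊ + 1)).filter
    (fun w => a1 - t ≤ |Ew a t w|) := ⟨_, rfl⟩
  have hWB : ∀ w ∈ W, Bulk ka (Ew a t w) := by
    intro w hw
    rw [hWd, Finset.mem_filter, Finset.mem_range] at hw
    have h1 := Ew_abs ha0 ht0 hw.1
    exact ⟨by linarith [hw.2], by linarith⟩
  have hWc : W.card ≤ ⌊a / t⌋₊ + 1 := by
    rw [hWd]
    exact (Finset.card_filter_le _ _).trans (le_of_eq (Finset.card_range _))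
  -- the bounds of the ladder
  have hang0 : ∀ w ∈ W, t * ‖ff σ (Ew a t w) t (0 : T 2 L)‖ ≤ C0 + 1 := by
    intro w hw
    have hE' := hWB w hw
    obtain ⟨E, hEd⟩ : ∃ E, E = Ew a t w := ⟨_, rfl⟩
    rw [← hEd] at hE' ⊢
    have h1 := H σ E t L (by rw [← hx]; exact hσ) (by rw [← hx]; exact hx1) hE'
      (by rw [← hx, ht]) htu (by rw [← hx]; exact hL) (fun _ => 0) (fun i => by
        unfold ang
        simp only [Int.cast_zero, mul_zero, zero_div, abs_zero]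
        positivity)
    have h2 : mom 2 L (fun _ => 0) = 0 := by
      funext i
      simp [mom]
    have h3 : (∑ i : Fin 2, ang L (fun _ : Fin 2 => (0 : ℤ)) i ^ 2) / (σ ^ 2 * t) = 0 := by
      unfold ang
      simp
    rw [h2, h3, Dl_zero] at h1
    have h4 := norm_sub_norm_le ((t : ℂ) * ff σ E t (0 : T 2 L)) (((mJ E).re : ℝ) : ℂ)
    rw [norm_mul, Complex.norm_real, Complex.norm_real, Real.norm_of_nonneg ht0.le,
      Real.norm_of_nonneg (hc0.le.trans (hJ E hE'))] at h4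
    have h5 := hJC' E hE'
    linarith
  have hangk : ∀ w ∈ W, ∀ i : Fin 2, ∀ k < n, ∀ l < n, k ≠ l →
      t * ‖ff σ (Ew a t w) t (k • mom 2 L (Pi.single i J) - l • mom 2 L (Pi.single i J))‖ ≤
        2 * δ / 3 := by
    intro w hw i k hk l hl hkl
    have hE' := hWB w hw
    obtain ⟨E, hEd⟩ : ∃ E, E = Ew a t w := ⟨_, rfl⟩
    rw [← hEd] at hE' ⊢
    rw [mom_smul]
    obtain ⟨j, hj⟩ : ∃ j : Fin 2 → ℤ, j = fun i' => ((k : ℤ) - l) * (Pi.single i J : Fin 2 → ℤ) i' :=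
      ⟨_, rfl⟩
    rw [← hj]
    have hkl1 : (1 : ℝ) ≤ |(((k : ℤ) - l : ℤ) : ℝ)| := by
      have h1 : (1 : ℤ) ≤ |(k : ℤ) - l| := Int.one_le_abs (by
        intro h0
        apply hkl
        omega)
      have h2 : ((1 : ℤ) : ℝ) ≤ ((|(k : ℤ) - l| : ℤ) : ℝ) := by exact_mod_cast h1
      rwa [Int.cast_abs, Int.cast_one] at h2
    have hkln : |(((k : ℤ) - l : ℤ) : ℝ)| ≤ n := by
      have h1 : |(k : ℤ) - l| ≤ n := by
        rw [abs_le]
        constructor <;> omega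
      have h2 : ((|(k : ℤ) - l| : ℤ) : ℝ) ≤ ((n : ℤ) : ℝ) := by exact_mod_cast h1
      rwa [Int.cast_abs, Int.cast_natCast] at h2
    have hai : ang L j i = (((k : ℤ) - l : ℤ) : ℝ) * θ := by
      unfold ang
      rw [hj, hθ]
      simp only [Pi.single_eq_same]
      push_cast
      ring
    have haj : ∀ i', i' ≠ i → ang L j i' = 0 := by
      intro i' hi'
      unfold ang
      rw [hj]
      simp only [Pi.single_eq_of_ne hi', mul_zero, Int.cast_zero, zero_div]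
    have h1 := H σ E t L (by rw [← hx]; exact hσ) (by rw [← hx]; exact hx1) hE'
      (by rw [← hx, ht]) htu (by rw [← hx]; exact hL) j (fun i' => by
        rw [← hx]
        by_cases hi : i' = i
        · subst hi
          rw [hai, abs_mul, abs_of_pos hθ0]
          calc |(((k : ℤ) - l : ℤ) : ℝ)| * θ ≤ n * ((M + 1) * (x * Real.sqrt t)) := by gcongr
            _ = _ := by ring
        · rw [haj i' hi, abs_zero]
          positivity)
    have h2 : ∑ i', ang L j i' ^ 2 = (((k : ℤ) - l : ℤ) : ℝ) ^ 2 * θ ^ 2 := by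
      rw [Finset.sum_eq_single i]
      · rw [hai]
        ring
      · intro i' _ hi'
        rw [haj i' hi']
        norm_num
      · intro h
        exact absurd (Finset.mem_univ i) h
    have h3 : M ^ 2 ≤ (∑ i', ang L j i' ^ 2) / (σ ^ 2 * t) := by
      have hσt : 0 < σ ^ 2 * t := by
        rw [hσx]
        positivity
      rw [h2, le_div_iff₀ hσt, hσx]
      have h4 : 1 ≤ (((k : ℤ) - l : ℤ) : ℝ) ^ 2 := by
        rw [← sq_abs]
        exact one_le_pow₀ hkl1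
      have h5 : M ^ 2 * (x ^ 2 * t) ≤ θ ^ 2 := by
        calc M ^ 2 * (x ^ 2 * t) = (M * (x * Real.sqrt t)) ^ 2 := by
              rw [mul_pow, mul_pow, Real.sq_sqrt ht0.le]
          _ ≤ θ ^ 2 := by gcongr
      exact h5.trans (le_mul_of_one_le_left (sq_nonneg θ) h4)
    have hJC := hJC' E hE'
    obtain ⟨b1, b2⟩ := Dl_le (q := (∑ i', ang L j i' ^ 2) / (σ ^ 2 * t)) hc0 (hJ E hE') hJC hs0
      (hS E hE') (by linarith) h3
    have h4 := norm_sub_norm_le ((t : ℂ) * ff σ E t (mom 2 L j))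
      ((Dl (mJ E).re (mS 2 E).re ((∑ i, ang L j i ^ 2) / (σ ^ 2 * t)) : ℝ) : ℂ)
    rw [norm_mul, Complex.norm_real, Complex.norm_real, Real.norm_of_nonneg ht0.le,
      Real.norm_of_nonneg b1] at h4
    linarith
  have hmean := Xw_mean (d := 2) (L := L) (σ := σ) ha0 ht0 ht1 hWc hn0 J (by linarith)
    (by positivity : 0 ≤ 2 * δ / 3) hang0 hangk
  have hmean2 : ∫ V, Xw W σ a t n J V ∂(Γ (T 2 L)) ≤ ε ^ 4 / 16 * NN 2 L := by
    refine hmean.trans ?_
    apply mul_le_mul_of_nonneg_right _ hN.le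
    have h1 : (C0 + 1) / n + 2 * δ / 3 ≤ δ := by linarith
    calc 4 * (2 : ℕ) * (a + 1) * ((C0 + 1) / n + 2 * δ / 3) ≤ 4 * (2 : ℕ) * (a + 1) * δ := by gcongr
      _ = ε ^ 4 / 16 := by
          rw [hδ]
          field_simp
          norm_num
  obtain ⟨θ0, hθ0d⟩ : ∃ θ0, θ0 = ε ^ 3 / 8 * NN 2 L := ⟨_, rfl⟩
  have hθ00 : 0 < θ0 := by rw [hθ0d]; positivity
  refine ⟨{V | Xw W σ a t n J V < θ0}, measurableSet_lt (Xw_meas W ht0 n J) measurable_const, ?_, ?_⟩
  · have h1 := mul_meas_ge_le_integral_of_nonneg (μ := Γ (T 2 L))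
      (f := fun V => Xw W σ a t n J V) (Filter.Eventually.of_forall fun V => Xw_nonneg W n J V)
      (Xw_int W ht0 n J) θ0
    have h2 : (Γ (T 2 L)).real {V | Xw W σ a t n J V < θ0} =
        1 - (Γ (T 2 L)).real {V | θ0 ≤ Xw W σ a t n J V} := by
      have h3 := probReal_add_probReal_compl (μ := Γ (T 2 L))
        (measurableSet_le (measurable_const (a := θ0)) (Xw_meas (d := 2) (L := L) W (σ := σ) (a := a)
          ht0 n J))
      have h4 : {V : T 2 L → ℝ | θ0 ≤ Xw W σ a t n J V}ᶜ = {V | Xw W σ a t n J V < θ0} := by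
        ext V
        simp
      rw [h4] at h3
      linarith
    have h3 : (Γ (T 2 L)).real {V | θ0 ≤ Xw W σ a t n J V} ≤ ε / 2 := by
      have h4 : θ0 * (Γ (T 2 L)).real {V | θ0 ≤ Xw W σ a t n J V} ≤ ε ^ 4 / 16 * NN 2 L :=
        h1.trans hmean2
      have h5 : ε ^ 4 / 16 * NN 2 L = θ0 * (ε / 2) := by
        rw [hθ0d]
        ring
      rw [h5] at h4
      exact le_of_mul_le_mul_left h4 hθ00
    rw [h2]
    linarith
  · intro V hV ι _ u lam hu heig hlam1 hlam hmass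
    have h1 := Xw_ge (W := W) ht0 n J V hu heig (fun j => by
      obtain ⟨w, hw, hlw⟩ := Ew_cover ht0 (hlam j)
      refine ⟨w, ?_, hlw⟩
      rw [hWd, Finset.mem_filter, Finset.mem_range]
      refine ⟨hw, ?_⟩
      have h2 := abs_sub_abs_le_abs_sub (lam j) (Ew a t w)
      linarith [hlam1 j])
    have hr0 : 0 ≤ x ^ (-b) := (Real.rpow_pos_of_pos hσ _).le
    have hJs : n * |2 * Real.pi * J / L| * (2 * x ^ (-b)) ≤ 1 / 2 := by
      rw [← hθ, abs_of_pos hθ0]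
      have h2 := H3 x hσ hx3
      refine le_trans ?_ h2
      calc n * θ * (2 * x ^ (-b)) ≤ n * ((M + 1) * (x * Real.sqrt t)) * (2 * x ^ (-b)) := by
            gcongr
        _ = 2 * n * (M + 1) * (x ^ (2 + κ / 2) * x ^ (-b)) := by
            rw [hst]
            ring
        _ = _ := by
            rw [← Real.rpow_add hσ]
            congr 2
    have h2 : ∀ j, ε ^ 2 / 4 ≤ ∑ i : Fin 2, Sw n (mom 2 L (Pi.single i J))
        (fun x y => ‖u j x‖ ^ 2 * ‖u j y‖ ^ 2) := by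
      intro j
      obtain ⟨i, c, hic⟩ := hmass j
      have h3 := Sw_slab hn0 i c J hJs hr0 (fun x => ‖u j x‖ ^ 2) fun x => by positivity
      refine le_trans ?_ (h3.trans ?_)
      · have h4 := pow_le_pow_left₀ hε.le hic 2
        linarith
      · exact Finset.single_le_sum (f := fun i : Fin 2 => Sw n (mom 2 L (Pi.single i J))
          (fun x y => ‖u j x‖ ^ 2 * ‖u j y‖ ^ 2))
          (fun i _ => Sw_nonneg _ _ fun x y => by positivity) (Finset.mem_univ i)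
    have h3 : (Fintype.card ι : ℝ) * (ε ^ 2 / 4) ≤ Xw W σ a t n J V := by
      refine le_trans ?_ h1
      calc (Fintype.card ι : ℝ) * (ε ^ 2 / 4) = ∑ _j : ι, ε ^ 2 / 4 := by
            rw [Finset.sum_const, Finset.card_univ, nsmul_eq_mul]
        _ ≤ _ := Finset.sum_le_sum fun j _ => h2 j
    have h4 : (Fintype.card ι : ℝ) * (ε ^ 2 / 4) ≤ ε ^ 3 / 8 * NN 2 L := by
      have h5 : Xw W σ a t n J V < θ0 := hV
      rw [hθ0d] at h5
      linarith
    have h5 : ε ^ 3 / 8 * NN 2 L = (ε / 2 * NN 2 L) * (ε ^ 2 / 4) := by ring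
    rw [h5] at h4
    have h6 := le_of_mul_le_mul_right h4 (by positivity)
    unfold NN at h6
    have h7 : 0 < ε * (L : ℝ) ^ 2 := by positivity
    linarith

end Pool.Agent.Run7.h442.T2
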